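import Pool.Agent.U586.MU.GenMain

/-!
# Functors with localization sequences
-/

set_option autoImplicit false

open CategoryTheory AlgebraicGeometry MvPolynomial Pool.Agent.Y116.UV

universe w

namespace Pool.Agent.U586.MU

variable {R : Type} [CommRing R]

/-- The abelian groups `G X` are invariant under isomorphisms, and for a closed subscheme `Z` of `X` with
complement `U` there is an exact sequence `G Z → G X → G U`. -/
structure HasLoc (sep : Prop) (G : Sch R → Type w) [∀ X, AddCommGroup (G X)] : Prop where
  iso : ∀ {X Y : Sch R}, FT sep X → Nonempty (X ≅ Y) → Nonempty (G X ≃+ G Y)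
  exact : ∀ {Z X U : Sch R} (i : Z ⟶ X) (j : U ⟶ X), FT sep X → IsTriple i j →
    ∃ (p : G Z →+ G X) (r : G X →+ G U), ∀ x, r x = 0 ↔ ∃ z, p z = x

lemma HasLoc.ext {sep : Prop} {G : Sch R → Type w} [∀ X, AddCommGroup (G X)]
    (h : HasLoc sep G) : Ext sep fun X => AddGroup.FG (G X) where
  iso hX e hG := by
    obtain ⟨e⟩ := h.iso hX e
    exact AddGroup.fg_of_surjective (f := e.toAddMonoidHom) e.surjective
  total i j hX ht hZ hU := by
    obtain ⟨p, r, h⟩ := h.exact i j hX ht
    exact fg_of_exact p r h hZ hU

end Pool.Agent.U586.MU
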