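import Pool.Agent.U586.MU.GenMain
import Pool.Agent.H920R2.Sr1

/-!
# Smooth algebras over regular rings are regular
-/

set_option autoImplicit false

open CategoryTheory AlgebraicGeometry MvPolynomial Pool.Agent.Y116.UV

namespace Pool.Agent.U586.MU

/-- A smooth algebra over a regular ring is regular. -/
theorem regular_of_smooth {K B : Type} [CommRing K] [IsRegularRing K] [CommRing B] [Algebra K B]
    [Algebra.Smooth K B] (Q : Ideal B) [Q.IsPrime] : IsRegularLocalRing (Localization.AtPrime Q) := by
  have h0 : Algebra.IsSmoothAt K Q := by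
    have := Algebra.smoothLocus_eq_univ (R := K) (A := B)
    have h : (⟨Q, inferInstance⟩ : PrimeSpectrum B) ∈ Algebra.smoothLocus K B := by
      rw [this]
      trivial
    exact h
  obtain ⟨f, hf, hs⟩ := Algebra.IsSmoothAt.exists_notMem_isStandardSmooth K Q
  obtain ⟨n, g, -, hg⟩ := (RingHom.isStandardSmooth_algebraMap.mpr hs).exists_etale_mvPolynomial
  algebraize [g]
  have hd : Disjoint (Submonoid.powers f : Set B) (Q : Set B) :=
    (Ideal.disjoint_powers_iff_notMem_of_isPrime f).mpr hf
  have hq : (Ideal.map (algebraMap B (Localization.Away f)) Q).IsPrime :=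
    IsLocalization.isPrime_of_isPrime_disjoint (.powers f) _ _ ‹_› hd
  have hc : (Ideal.map (algebraMap B (Localization.Away f)) Q).comap
      (algebraMap B (Localization.Away f)) = Q :=
    IsLocalization.under_map_of_isPrime_disjoint (.powers f) _ ‹_› hd
  have h1 := IsLocalization.isLocalization_isLocalization_atPrime_isLocalization
    (Submonoid.powers f)
    (Localization.AtPrime (Ideal.map (algebraMap B (Localization.Away f)) Q))
    (Ideal.map (algebraMap B (Localization.Away f)) Q)
  have h2 := Pool.Agent.H920R2.regular_of_etale (P := MvPolynomial (Fin n) K)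
    (B := Localization.Away f) (Ideal.map (algebraMap B (Localization.Away f)) Q)
  have h3 : IsLocalization.AtPrime
      (Localization.AtPrime (Ideal.map (algebraMap B (Localization.Away f)) Q)) Q := by
    simpa only [hc] using h1
  exact IsRegularLocalRing.of_ringEquiv (IsLocalization.algEquiv Q.primeCompl
    (Localization.AtPrime (Ideal.map (algebraMap B (Localization.Away f)) Q))
    (Localization.AtPrime Q)).toRingEquiv

/-- All local rings of `X` are regular. -/
def IsRegularSch (X : Scheme.{0}) : Prop := ∀ x : X, IsRegularLocalRing (X.presheaf.stalk x)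

lemma isRegularSch_spec (B : Type) [CommRing B]
    (h : ∀ (Q : Ideal B) [Q.IsPrime], IsRegularLocalRing (Localization.AtPrime Q)) :
    IsRegularSch (Spec (.of B)) := by
  intro x
  have hx : x.asIdeal.IsPrime := x.2
  have := h x.asIdeal
  exact IsRegularLocalRing.of_ringEquiv
    ((Spec.stalkIso (.of B) x).commRingCatIsoToRingEquiv).symm

lemma regular_of_spec_smooth {K B : Type} [CommRing K] [IsRegularRing K] [CommRing B]
    (f : Spec (CommRingCat.of B) ⟶ Spec (CommRingCat.of K)) (hf : Smooth f) :
    IsRegularSch (Spec (.of B)) := by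
  obtain ⟨φ, rfl⟩ := Spec.map_surjective f
  rw [HasRingHomProperty.Spec_iff (P := @Smooth)] at hf
  let : Algebra K B := φ.hom.toAlgebra
  have h1 : Algebra.Smooth K B := hf
  exact isRegularSch_spec B fun Q _ => regular_of_smooth (K := K) Q

/-- Affine schemes which are smooth over `ℤ` or over a prime field are regular. -/
theorem regular_of_smoothOverPrime (B : Type) [CommRing B] (h : SmoothOverPrime (Spec (.of B))) :
    IsRegularSch (Spec (.of B)) := by
  rcases h with ⟨f, hf⟩ | ⟨p, f, hp, hf⟩
  · have : IsRegularRing ℤ := inferInstance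
    exact regular_of_spec_smooth f hf
  · have : Fact p.Prime := ⟨hp⟩
    have : IsRegularRing (ZMod p) := inferInstance
    exact regular_of_spec_smooth f hf

end Pool.Agent.U586.MU
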