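import Pool.Agent.U586.MU.GenMain

/-!
# Higher Chow groups of arithmetic schemes and of fields, formally
-/

set_option autoImplicit false

open CategoryTheory AlgebraicGeometry MvPolynomial Pool.Agent.Y116.UV

universe w

namespace Pool.Agent.U586.MU

/-- The groups `A j m X = CH_j(X, m)` (cycles of dimension `j + m` on `X × Δ^m`) for schemes `X` over `ℤ`,
their restrictions to open subschemes, and the groups `H n m L = CH^n(L, m)` (cycles of codimension `n` on
`Δ^m_L`) for fields `L`; so `H n m L` is the motivic cohomology group `H^(2n-m)(L, ℤ(n))`. -/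
structure ChowData where
  A : ℤ → ℤ → Sch ℤ → Type w
  grpA : ∀ j m X, AddCommGroup (A j m X)
  H : ℤ → ℤ → (L : Type) → [Field L] → Type w
  grpH : ∀ n m (L : Type) [Field L], AddCommGroup (H n m L)
  res : ∀ (j m : ℤ) {U X : Sch ℤ} (u : U ⟶ X), IsOpenImmersion u.left → A j m X →+ A j m U

attribute [instance] ChowData.grpA ChowData.grpH

/-- The restriction to `D(g)`. -/
lemma open_away (B : Type) [CommRing B] [Algebra ℤ B] (g : B) :
    IsOpenImmersion (affMap (IsScalarTower.toAlgHom ℤ B (Localization.Away g))).left :=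
  (triple_away g).opened

/-- The restriction `CH_j(Spec B, m) → CH_j(D(g), m)`. -/
noncomputable def ChowData.resAway (T : ChowData.{w}) (j m : ℤ) (B : Type) [CommRing B]
    [Algebra ℤ B] (g : B) : T.A j m (aff ℤ B) →+ T.A j m (aff ℤ (Localization.Away g)) :=
  T.res j m _ (open_away B g)

/-- For an integral domain `B` of dimension `e` with quotient field `L`: an element of `CH_j(Spec B, m)`
whose image in `CH^(e-j)(L, m)` is zero has restriction zero to some `D(h)`, `h ≠ 0`; and every element of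
`CH^(e-j)(L, m)` comes from some `D(g)`, `g ≠ 0`. -/
def ChowData.Generic (T : ChowData.{w}) (j m : ℤ) (B : Type) [CommRing B] [IsDomain B]
    [Algebra ℤ B] (e : ℕ) : Prop :=
  (∃ ρ : T.A j m (aff ℤ B) →+ T.H (e - j) m (FractionRing B), ∀ x, ρ x = 0 →
    ∃ h : B, h ≠ 0 ∧ T.resAway j m B h x = 0) ∧
  ∀ y : T.H (e - j) m (FractionRing B), ∃ g : B, g ≠ 0 ∧
    ∃ (σ : T.A j m (aff ℤ (Localization.Away g)) →+ T.H (e - j) m (FractionRing B))
      (x : T.A j m (aff ℤ (Localization.Away g))), σ x = y

/-- Known properties of the higher Chow groups (Bloch, Levine), for schemes of finite type over `ℤ`: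

* `iso`, `empty`: isomorphic schemes have isomorphic groups; the groups of the empty scheme vanish;
* `localization`: for a closed subscheme `Z` of `X` with complement `U` the kernel of the restriction
  `CH_j(X, m) → CH_j(U, m)` is the image of a homomorphism `CH_j(Z, m) → CH_j(X, m)`;
* `generic`: the groups of the quotient field of an integral domain `B` of finite type over `ℤ` of
  dimension `e` are the limit of the groups of the open subschemes `D(g)` of `Spec B`;
* `low`: `CH^n(L, m) = 0` for `n ≤ 0` and `m ≥ 1`, for every field `L`. -/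
structure IsChowTheory (T : ChowData.{w}) : Prop where
  iso : ∀ {X Y : Sch ℤ}, FT False X → Nonempty (X ≅ Y) → ∀ j m, Nonempty (T.A j m X ≃+ T.A j m Y)
  empty : ∀ X : Sch ℤ, IsEmpty X.left → ∀ j m, Subsingleton (T.A j m X)
  localization : ∀ {Z X U : Sch ℤ} (i : Z ⟶ X) (u : U ⟶ X), FT False X → ∀ h : IsTriple i u,
    ∀ j m, ∃ p : T.A j m Z →+ T.A j m X, ∀ x, T.res j m u h.opened x = 0 ↔ ∃ z, p z = x
  generic : ∀ (B : Type) [CommRing B] [IsDomain B] [Algebra ℤ B] [Algebra.FiniteType ℤ B] (e : ℕ),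
    ringKrullDim B = e → ∀ j m : ℤ, T.Generic j m B e
  low : ∀ (L : Type) [Field L] (n m : ℤ), n ≤ 0 → 1 ≤ m → Subsingleton (T.H n m L)

variable {T : ChowData.{w}}

lemma IsChowTheory.ext (hT : IsChowTheory T) (j m : ℤ) :
    Ext False fun X => Subsingleton (T.A j m X) where
  iso hX e h := by
    obtain ⟨e⟩ := hT.iso hX e j m
    exact e.symm.toEquiv.subsingleton
  total i u hX ht hZ hU := by
    obtain ⟨p, hp⟩ := hT.localization i u hX ht j m
    have h0 : ∀ x : T.A j m _, x = 0 := fun x => by
      obtain ⟨z, rfl⟩ := (hp x).mp (Subsingleton.elim _ _)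
      rw [Subsingleton.elim z 0, map_zero]
    exact ⟨fun x y => by rw [h0 x, h0 y]⟩

lemma topDim (B : Type) [CommRing B] [Algebra ℤ B] :
    topologicalKrullDim (aff ℤ B).left = ringKrullDim B :=
  PrimeSpectrum.topologicalKrullDim_eq_ringKrullDim B

/-- From the generic points to all schemes. -/
theorem scheme_of_fields (hT : IsChowTheory T) {K : Sch ℤ → Prop} (hK : Hered False K) (d : ℕ)
    (j m : ℤ)
    (h : ∀ (B : Type) [CommRing B] [IsDomain B] [Algebra ℤ B] [Algebra.FiniteType ℤ B],
      K (aff ℤ B) → ∀ e : ℕ, ringKrullDim B = e → e ≤ d →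
        Subsingleton (T.H (e - j) m (FractionRing B)))
    (X : Sch ℤ) (hX : FT False X) (hKX : K X) (hd : topologicalKrullDim X.left ≤ d) :
    Subsingleton (T.A j m X) := by
  have hK' : Hered False fun X : Sch ℤ => K X ∧ DimLE (d : WithBot ℕ∞) X :=
    { iso := fun hX e h => ⟨hK.iso hX e h.1, (hered_dim False _).iso hX e h.2⟩
      sub := fun i u hX ht h => ⟨⟨(hK.sub i u hX ht h.1).1, ((hered_dim False _).sub i u hX ht h.2).1⟩,
        ⟨(hK.sub i u hX ht h.1).2, ((hered_dim False _).sub i u hX ht h.2).2⟩⟩ }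
  have hP := ext_rel (hT.ext j m) hK'
  refine of_affine' hP.iso hP.total ?_ X hX ⟨hKX, hd⟩
  intro A _ _ _
  refine noeth_ind hP (fun B _ _ _ _ => hT.empty _ (isEmpty_aff B) j m) ?_ A
  intro B _ _ _ hB ih hKB
  have h1 : ringKrullDim B ≤ d := by
    rw [← topDim]
    exact hKB.2
  obtain ⟨e, he⟩ : ∃ e : ℕ, ringKrullDim B = e := by
    have h2 : ringKrullDim B ≠ ⊥ := fun h => by
      have := ringKrullDim_nonneg_of_nontrivial (R := B)
      rw [h] at this
      exact absurd this (by simp)
    obtain ⟨e, he⟩ := WithBot.ne_bot_iff_exists.mp h2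
    rw [← he] at h1
    have h3 : e ≤ (d : ℕ∞) := WithBot.coe_le_coe.mp h1
    obtain ⟨e', he'⟩ := ENat.ne_top_iff_exists.mp (ne_top_of_le_ne_top (ENat.natCast_ne_top d) h3)
    exact ⟨e', by rw [← he, ← he']; rfl⟩
  have hed : e ≤ d := by
    rw [he] at h1
    exact_mod_cast h1
  obtain ⟨⟨ρ, hρ⟩, -⟩ := hT.generic B e he j m
  have hH := h B hKB.1 e he hed
  have h0 : ∀ x : T.A j m (aff ℤ B), x = 0 := fun x => by
    obtain ⟨g, hg, hx⟩ := hρ x (Subsingleton.elim _ _)
    obtain ⟨p, hp⟩ := hT.localization _ _ (ft_aff False) (triple_away g) j m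
    obtain ⟨z, rfl⟩ := (hp x).mp hx
    have := ih g hg ((hK'.sub _ _ (ft_aff False) (triple_away g) hKB).1)
    rw [Subsingleton.elim z 0, map_zero]
  exact ⟨fun x y => by rw [h0 x, h0 y]⟩

/-- From the schemes to the generic points. -/
theorem fields_of_scheme (hT : IsChowTheory T) (d : ℕ) (j m : ℤ) {K : Sch ℤ → Prop}
    (hK : Hered False K)
    (h : ∀ X : Sch ℤ, FT False X → K X → topologicalKrullDim X.left ≤ d → Subsingleton (T.A j m X))
    (B : Type) [CommRing B] [IsDomain B] [Algebra ℤ B] [Algebra.FiniteType ℤ B]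
    (hKB : K (aff ℤ B)) (e : ℕ) (he : ringKrullDim B = e) (hed : e ≤ d) :
    Subsingleton (T.H (e - j) m (FractionRing B)) := by
  have h0 : ∀ y : T.H (e - j) m (FractionRing B), y = 0 := fun y => by
    obtain ⟨g, hg, σ, x, rfl⟩ := (hT.generic B e he j m).2 y
    have hft : Algebra.FiniteType ℤ (Localization.Away g) :=
      Algebra.FiniteType.trans (S := B) inferInstance inferInstance
    have h1 : topologicalKrullDim (aff ℤ B).left ≤ d := by
      rw [topDim, he]
      exact_mod_cast hed
    have := h (aff ℤ (Localization.Away g)) (ft_aff False)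
      (hK.sub _ _ (ft_aff False) (triple_away g) hKB).2
      ((hered_dim False _).sub _ _ (ft_aff False) (triple_away g) h1).2
    rw [Subsingleton.elim x 0, map_zero]
  exact ⟨fun x y => by rw [h0 x, h0 y]⟩

end Pool.Agent.U586.MU
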