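import Mathlib

/-!
# Embeddings of countable fields in the field of complex numbers
-/

set_option autoImplicit false

open Cardinal

namespace Pool.Agent.U586.MU

/-- A countable field of characteristic zero embeds in `ℂ`. -/
theorem embeds_complex (L : Type) [Field L] [CharZero L] [Countable L] : Nonempty (L →+* ℂ) := by
  let M := FractionRing (MvPolynomial ℝ L)
  let K := AlgebraicClosure M
  have hc : #ℂ = 𝔠 := mk_complex
  have h1 : #(MvPolynomial ℝ L) = 𝔠 := by
    rw [MvPolynomial.cardinalMk_eq_max, mk_real]
    rw [max_eq_left, max_eq_right]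
    · exact (mk_le_aleph0 (α := L)).trans aleph0_le_continuum
    · exact le_max_of_le_right aleph0_le_continuum
  have h2 : #M = 𝔠 := by
    rw [← h1]
    exact IsLocalization.cardinalMk M (nonZeroDivisors (MvPolynomial ℝ L)) le_rfl
  have h3 : #K ≤ 𝔠 := by
    have := Algebra.IsAlgebraic.cardinalMk_le_max M K
    rwa [h2, max_eq_left aleph0_le_continuum] at this
  have h4 : 𝔠 ≤ #K := by
    rw [← h2]
    exact mk_le_of_injective (algebraMap M K).injective
  have h5 : #K = 𝔠 := le_antisymm h3 h4
  have h0 : CharZero M := charZero_of_injective_algebraMap (R := MvPolynomial ℝ L)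
    (IsFractionRing.injective (MvPolynomial ℝ L) M)
  have h6 : CharZero K := charZero_of_injective_algebraMap (algebraMap M K).injective
  have h7 : Nonempty (K ≃ ℂ) := Cardinal.eq.mp (h5.trans hc.symm)
  obtain ⟨e⟩ := IsAlgClosed.ringEquiv_of_equiv_of_charZero (K := K) (L := ℂ)
    (by rw [h5]; exact aleph0_lt_continuum) h7
  exact ⟨e.toRingHom.comp ((algebraMap M K).comp ((algebraMap (MvPolynomial ℝ L) M).comp
    MvPolynomial.C))⟩

end Pool.Agent.U586.MU
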