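import Pool.Agent.U586.MU.GenMain
import Pool.Agent.U586.MU.Emb

/-!
# Rational higher Chow groups of varieties in characteristic zero, formally
-/

set_option autoImplicit false

open CategoryTheory AlgebraicGeometry MvPolynomial Pool.Agent.Y116.UV

universe w

namespace Pool.Agent.U586.MU

/-- The groups `A F j m X = CH_j(X, m) ⊗ ℚ` for schemes `X` over fields `F`, their restrictions to open
subschemes, and the groups `H n m L = CH^n(L, m) ⊗ ℚ` for fields `L`, with the maps `map` for field
extensions. -/
structure RatData where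
  A : (F : Type) → [Field F] → ℤ → ℤ → Sch F → Type w
  grpA : ∀ (F : Type) [Field F] (j m : ℤ) (X : Sch F), AddCommGroup (A F j m X)
  H : ℤ → ℤ → (L : Type) → [Field L] → Type w
  grpH : ∀ n m (L : Type) [Field L], AddCommGroup (H n m L)
  res : ∀ (F : Type) [Field F] (j m : ℤ) {U X : Sch F} (u : U ⟶ X), IsOpenImmersion u.left →
    A F j m X →+ A F j m U
  map : ∀ (n m : ℤ) {L L' : Type} [Field L] [Field L'], (L →+* L') → H n m L →+ H n m L'

attribute [instance] RatData.grpA RatData.grpH

lemma open_away' (F B : Type) [Field F] [CommRing B] [Algebra F B] (g : B) :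
    IsOpenImmersion (affMap (IsScalarTower.toAlgHom F B (Localization.Away g))).left :=
  (triple_away g).opened

/-- The restriction `CH_j(Spec B, m) → CH_j(D(g), m)`. -/
noncomputable def RatData.resAway (T : RatData.{w}) (F : Type) [Field F] (j m : ℤ) (B : Type)
    [CommRing B] [Algebra F B] (g : B) :
    T.A F j m (aff F B) →+ T.A F j m (aff F (Localization.Away g)) :=
  T.res F j m _ (open_away' F B g)

/-- For an integral domain `B` of dimension `e` over `F` with quotient field `L`: an element of
`CH_j(Spec B, m)` whose image in `CH^(e-j)(L, m)` is zero has restriction zero to some `D(h)`, `h ≠ 0`; and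
every element of `CH^(e-j)(L, m)` comes from some `D(g)`, `g ≠ 0`. -/
def RatData.Generic (T : RatData.{w}) (F : Type) [Field F] (j m : ℤ) (B : Type) [CommRing B]
    [IsDomain B] [Algebra F B] (e : ℕ) : Prop :=
  (∃ ρ : T.A F j m (aff F B) →+ T.H (e - j) m (FractionRing B), ∀ x, ρ x = 0 →
    ∃ h : B, h ≠ 0 ∧ T.resAway F j m B h x = 0) ∧
  ∀ y : T.H (e - j) m (FractionRing B), ∃ g : B, g ≠ 0 ∧
    ∃ (σ : T.A F j m (aff F (Localization.Away g)) →+ T.H (e - j) m (FractionRing B))
      (x : T.A F j m (aff F (Localization.Away g))), σ x = y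

/-- Every element of `CH^n(L, m) ⊗ ℚ` comes from the quotient field of a domain of finite type over `ℚ`. -/
def RatData.Small (T : RatData.{w}) (n m : ℤ) (L : Type) [Field L] (y : T.H n m L) : Prop :=
  ∃ (B : Type) (_ : CommRing B) (_ : IsDomain B) (_ : Algebra ℚ B) (_ : Algebra.FiniteType ℚ B)
    (f : FractionRing B →+* L) (x : T.H n m (FractionRing B)), T.map n m f x = y

/-- Known properties of the rational higher Chow groups (Bloch) of schemes `X` of finite type over fields
`F` of characteristic zero, and of fields of characteristic zero: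

* `iso`, `empty`: isomorphic schemes have isomorphic groups; the groups of the empty scheme vanish;
* `localization`: for a closed subscheme `Z` of `X` with complement `U` the kernel of the restriction
  `CH_j(X, m) → CH_j(U, m)` is the image of a homomorphism `CH_j(Z, m) → CH_j(X, m)`;
* `generic`: the groups of the quotient field of an integral domain `B` of finite type over `F` of
  dimension `e` are the limit of the groups of the open subschemes `D(g)` of `Spec B`;
* `low`: `CH^n(L, m) = 0` for `n ≤ 0` and `m ≥ 1`;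
* `injective`: `CH^n(L, m) ⊗ ℚ → CH^n(L', m) ⊗ ℚ` is injective for field extensions (transfers);
* `small`: `CH^n(L, m)` is the limit of the groups of the finitely generated subfields. -/
structure IsRatTheory (T : RatData.{w}) : Prop where
  iso : ∀ (F : Type) [Field F] [CharZero F] {X Y : Sch F}, FT False X → Nonempty (X ≅ Y) →
    ∀ j m, Nonempty (T.A F j m X ≃+ T.A F j m Y)
  empty : ∀ (F : Type) [Field F] [CharZero F] (X : Sch F), IsEmpty X.left →
    ∀ j m, Subsingleton (T.A F j m X)
  localization : ∀ (F : Type) [Field F] [CharZero F] {Z X U : Sch F} (i : Z ⟶ X) (u : U ⟶ X),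
    FT False X → ∀ h : IsTriple i u, ∀ j m, ∃ p : T.A F j m Z →+ T.A F j m X,
      ∀ x, T.res F j m u h.opened x = 0 ↔ ∃ z, p z = x
  generic : ∀ (F : Type) [Field F] [CharZero F] (B : Type) [CommRing B] [IsDomain B] [Algebra F B]
    [Algebra.FiniteType F B] (e : ℕ), ringKrullDim B = e → ∀ j m : ℤ, T.Generic F j m B e
  low : ∀ (L : Type) [Field L] (n m : ℤ), n ≤ 0 → 1 ≤ m → Subsingleton (T.H n m L)
  injective : ∀ (n m : ℤ) {L L' : Type} [Field L] [Field L'] [CharZero L] (f : L →+* L'),
    Function.Injective (T.map n m f)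
  small : ∀ (n m : ℤ) (L : Type) [Field L] [CharZero L] (y : T.H n m L), T.Small n m L y

variable {T : RatData.{w}}

lemma IsRatTheory.ext (hT : IsRatTheory T) (F : Type) [Field F] [CharZero F] (j m : ℤ) :
    Ext False fun X : Sch F => Subsingleton (T.A F j m X) where
  iso hX e h := by
    obtain ⟨e⟩ := hT.iso F hX e j m
    exact e.symm.toEquiv.subsingleton
  total i u hX ht hZ hU := by
    obtain ⟨p, hp⟩ := hT.localization F i u hX ht j m
    have h0 : ∀ x : T.A F j m _, x = 0 := fun x => by
      obtain ⟨z, rfl⟩ := (hp x).mp (Subsingleton.elim _ _)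
      rw [Subsingleton.elim z 0, map_zero]
    exact ⟨fun x y => by rw [h0 x, h0 y]⟩

lemma topDim' (F B : Type) [Field F] [CommRing B] [Algebra F B] :
    topologicalKrullDim (aff F B).left = ringKrullDim B :=
  PrimeSpectrum.topologicalKrullDim_eq_ringKrullDim B

/-- From the generic points to all schemes. -/
theorem rat_scheme_of_fields (hT : IsRatTheory T) (F : Type) [Field F] [CharZero F] (d : ℕ)
    (j m : ℤ)
    (h : ∀ (B : Type) [CommRing B] [IsDomain B] [Algebra F B] [Algebra.FiniteType F B] (e : ℕ),
      ringKrullDim B = e → e ≤ d → Subsingleton (T.H (e - j) m (FractionRing B)))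
    (X : Sch F) (hX : FT False X) (hd : topologicalKrullDim X.left ≤ d) :
    Subsingleton (T.A F j m X) := by
  have hP := ext_rel (hT.ext F j m) (hered_dim (R := F) False (d : WithBot ℕ∞))
  refine of_affine' hP.iso hP.total ?_ X hX hd
  intro A _ _ _
  refine noeth_ind hP (fun B _ _ _ _ => hT.empty F _ (isEmpty_aff B) j m) ?_ A
  intro B _ _ _ hB ih hKB
  have h1 : ringKrullDim B ≤ d := by
    rw [← topDim' F]
    exact hKB
  obtain ⟨e, he⟩ : ∃ e : ℕ, ringKrullDim B = e := by
    have h2 : ringKrullDim B ≠ ⊥ := fun h => by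
      have := ringKrullDim_nonneg_of_nontrivial (R := B)
      rw [h] at this
      exact absurd this (by simp)
    obtain ⟨e, he⟩ := WithBot.ne_bot_iff_exists.mp h2
    rw [← he] at h1
    have h3 : e ≤ (d : ℕ∞) := WithBot.coe_le_coe.mp h1
    obtain ⟨e', he'⟩ := ENat.ne_top_iff_exists.mp (ne_top_of_le_ne_top (ENat.natCast_ne_top d) h3)
    exact ⟨e', by rw [← he, ← he']; rfl⟩
  have hed : e ≤ d := by
    rw [he] at h1
    exact_mod_cast h1
  obtain ⟨⟨ρ, hρ⟩, -⟩ := hT.generic F B e he j m
  have hH := h B e he hed
  have h0 : ∀ x : T.A F j m (aff F B), x = 0 := fun x => by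
    obtain ⟨g, hg, hx⟩ := hρ x (Subsingleton.elim _ _)
    obtain ⟨p, hp⟩ := hT.localization F _ _ (ft_aff False) (triple_away g) j m
    obtain ⟨z, rfl⟩ := (hp x).mp hx
    have := ih g hg ((hered_dim False _).sub _ _ (ft_aff False) (triple_away g) hKB).1
    rw [Subsingleton.elim z 0, map_zero]
  exact ⟨fun x y => by rw [h0 x, h0 y]⟩

/-- From the schemes to the generic points. -/
theorem rat_fields_of_scheme (hT : IsRatTheory T) (F : Type) [Field F] [CharZero F] (e : ℕ)
    (j m : ℤ) (h : ∀ X : Sch F, FT False X → topologicalKrullDim X.left ≤ e →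
      Subsingleton (T.A F j m X))
    (B : Type) [CommRing B] [IsDomain B] [Algebra F B] [Algebra.FiniteType F B]
    (he : ringKrullDim B = e) : Subsingleton (T.H (e - j) m (FractionRing B)) := by
  have h0 : ∀ y : T.H (e - j) m (FractionRing B), y = 0 := fun y => by
    obtain ⟨g, hg, σ, x, rfl⟩ := (hT.generic F B e he j m).2 y
    have hft : Algebra.FiniteType F (Localization.Away g) :=
      Algebra.FiniteType.trans (S := B) inferInstance inferInstance
    have h1 : topologicalKrullDim (aff F B).left ≤ e := by
      rw [topDim', he]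
    have := h (aff F (Localization.Away g)) (ft_aff False)
      ((hered_dim False _).sub _ _ (ft_aff False) (triple_away g) h1).2
    rw [Subsingleton.elim x 0, map_zero]
  exact ⟨fun x y => by rw [h0 x, h0 y]⟩

/-- The dimension of a domain of finite type over a field. -/
lemma exists_krull (F B : Type) [Field F] [CommRing B] [IsDomain B] [Algebra F B]
    [h : Algebra.FiniteType F B] : ∃ e : ℕ, ringKrullDim B = e := by
  obtain ⟨n, f, hf⟩ := Algebra.FiniteType.iff_quotient_mvPolynomial''.mp h
  have h1 : ringKrullDim B ≤ n := by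
    refine (ringKrullDim_le_of_surjective (f : MvPolynomial (Fin n) F →+* B) hf).trans ?_
    rw [MvPolynomial.ringKrullDim_of_isNoetherianRing, ringKrullDim_eq_zero_of_field, zero_add]
    simp
  have h2 : ringKrullDim B ≠ ⊥ := fun h => by
    have := ringKrullDim_nonneg_of_nontrivial (R := B)
    rw [h] at this
    exact absurd this (by simp)
  obtain ⟨e, he⟩ := WithBot.ne_bot_iff_exists.mp h2
  rw [← he] at h1
  have h3 : e ≤ (n : ℕ∞) := WithBot.coe_le_coe.mp h1
  obtain ⟨e', he'⟩ := ENat.ne_top_iff_exists.mp (ne_top_of_le_ne_top (ENat.natCast_ne_top n) h3)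
  exact ⟨e', by rw [← he, ← he']; rfl⟩

end Pool.Agent.U586.MU
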