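import Pool.Agent.Y116.UV.Defs

/-!
# Realization spaces of configurations of points in the projective plane
-/

set_option autoImplicit false

open MvPolynomial Pool.Agent.Y116.UV

namespace Pool.Agent.U586.MU

/-- The determinant of the columns `t.1`, `t.2.1`, `t.2.2` of a matrix with three rows and with columns
indexed by `E`. -/
def det3 {A E : Type} [CommRing A] (M : Fin 3 → E → A) (t : E × E × E) : A :=
  Matrix.det !![M 0 t.1, M 0 t.2.1, M 0 t.2.2; M 1 t.1, M 1 t.2.1, M 1 t.2.2;
    M 2 t.1, M 2 t.2.1, M 2 t.2.2]

/-- The combinatorial type of a configuration of points of the projective plane labelled by `E`: the set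
`dep` of the collinear triples, four labels `frame` of points which form a projective frame, and for
each point a homogeneous coordinate `norm` which does not vanish at it. -/
structure Cfg (E : Type) where
  frame : Fin 4 → E
  norm : E → Fin 3
  dep : Set (E × E × E)

/-- The columns of the matrix `M` are the homogeneous coordinates of a configuration of points of type
`π`: the frame consists of the points `(1:0:0)`, `(0:1:0)`, `(0:0:1)`, `(1:1:1)`; the coordinate `norm e`
of the column of the point `e` is `1`; and exactly the triples in `dep` are collinear. -/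
structure IsReal {C E : Type} [CommRing C] (π : Cfg E) (M : Fin 3 → E → C) : Prop where
  frame : ∀ r s : Fin 3, M r (π.frame s.castSucc) = if r = s then 1 else 0
  frame' : ∀ r : Fin 3, M r (π.frame (Fin.last 3)) = 1
  norm : ∀ e, M (π.norm e) e = 1
  dep : ∀ t ∈ π.dep, det3 M t = 0
  indep : ∀ t ∉ π.dep, IsUnit (det3 M t)

section

variable (R : Type) [CommRing R] {E : Type}

/-- the generic matrix -/
noncomputable def genM (E : Type) (r : Fin 3) (e : E) : MvPolynomial (Fin 3 × E) R := X (r, e)

/-- The equations of the realization space. -/
def Cfg.eqs (π : Cfg E) : Set (MvPolynomial (Fin 3 × E) R) :=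
  {p | ∃ r s : Fin 3, p = genM R E r (π.frame s.castSucc) - if r = s then 1 else 0} ∪
    {p | ∃ r : Fin 3, p = genM R E r (π.frame (Fin.last 3)) - 1} ∪
    {p | ∃ e : E, p = genM R E (π.norm e) e - 1} ∪ {p | ∃ t ∈ π.dep, p = det3 (genM R E) t}

open Classical in
/-- The product of the determinants of the triples of points which are not collinear. -/
noncomputable def Cfg.disc [Fintype E] (π : Cfg E) : MvPolynomial (Fin 3 × E) R :=
  ∏ t ∈ Finset.univ.filter fun t => t ∉ π.dep, det3 (genM R E) t

/-- The ring of functions of the realization space. -/
abbrev Cfg.Ring [Fintype E] (π : Cfg E) : Type :=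
  Localization.Away (Ideal.Quotient.mk (Ideal.span (π.eqs R)) (π.disc R))

/-- The realization space of the type `π` over the ring `R`. -/
noncomputable def Cfg.space [Fintype E] (π : Cfg E) : Sch R := aff R (π.Ring R)

end

end Pool.Agent.U586.MU
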