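import Pool.Agent.U586.MU.Main

/-!
# Hereditary classes and groups with localization sequences
-/

set_option autoImplicit false

open CategoryTheory AlgebraicGeometry MvPolynomial Pool.Agent.Y116.UV

universe w

namespace Pool.Agent.U586.MU

/-- the schemes of dimension at most `d` -/
def DimLE {R : Type} [CommRing R] (d : WithBot ℕ∞) (X : Sch R) : Prop :=
  topologicalKrullDim X.left ≤ d

lemma hered_dim {R : Type} [CommRing R] (sep : Prop) (d : WithBot ℕ∞) :
    Hered sep (DimLE (R := R) d) where
  iso {X Y} _ e h := by
    obtain ⟨e⟩ := e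
    have h1 : IsIso e.inv.left := inferInstanceAs (IsIso ((Over.forget _).map e.inv))
    have h2 : Topology.IsInducing e.inv.left := e.inv.left.isOpenEmbedding.isInducing
    exact h2.topologicalKrullDim_le.trans h
  sub {Z X U} i j _ ht h := by
    have h1 := ht.closed
    have h2 := ht.opened
    exact ⟨i.left.isClosedEmbedding.isInducing.topologicalKrullDim_le.trans h,
      j.left.isOpenEmbedding.isInducing.topologicalKrullDim_le.trans h⟩

/-- An extension of finitely generated abelian groups. -/
lemma fg_of_exact {A B C : Type w} [AddCommGroup A] [AddCommGroup B] [AddCommGroup C]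
    (f : A →+ B) (g : B →+ C) (h : ∀ x, g x = 0 ↔ ∃ z, f z = x) (hA : AddGroup.FG A)
    (hC : AddGroup.FG C) : AddGroup.FG B := by
  rw [← Module.Finite.iff_addGroup_fg] at hA hC ⊢
  have h1 : Module.Finite ℤ (LinearMap.range f.toIntLinearMap) := inferInstance
  have h2 : Module.Finite ℤ (LinearMap.range g.toIntLinearMap) := by
    have : IsNoetherian ℤ C := isNoetherian_of_isNoetherianRing_of_finite ℤ C
    infer_instance
  have h3 : LinearMap.ker g.toIntLinearMap = LinearMap.range f.toIntLinearMap := by
    ext x
    rw [LinearMap.mem_ker, LinearMap.mem_range]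
    exact h x
  have h4 : Module.Finite ℤ (LinearMap.ker g.toIntLinearMap) := by
    rw [h3]
    exact h1
  have e := g.toIntLinearMap.quotKerEquivRange.symm
  have h5 : Module.Finite ℤ (B ⧸ LinearMap.ker g.toIntLinearMap) := Module.Finite.equiv e
  exact Module.Finite.of_submodule_quotient (LinearMap.ker g.toIntLinearMap)

end Pool.Agent.U586.MU
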