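import Pool.Agent.U586.MU.Part

/-!
# Generic properties, generic smoothness
-/

set_option autoImplicit false

open CategoryTheory AlgebraicGeometry MvPolynomial Pool.Agent.Y116.UV

namespace Pool.Agent.U586.MU

section alg

variable (B : Type) [CommRing B] [IsDomain B]

lemma smooth_of_frac (K : Type) [CommRing K] [Algebra K B] [Algebra.FinitePresentation K B]
    (h : Algebra.FormallySmooth K (FractionRing B)) :
    ∃ g : B, g ≠ 0 ∧ Algebra.Smooth K (Localization.Away g) := by
  have h1 : IsLocalization (nonZeroDivisors B) (Localization.AtPrime (⊥ : Ideal B)) := by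
    have : (⊥ : Ideal B).primeCompl = nonZeroDivisors B := by
      ext x
      rw [Ideal.mem_primeCompl_iff, Ideal.mem_bot, mem_nonZeroDivisors_iff_ne_zero]
    rw [← this]
    infer_instance
  have e : FractionRing B ≃ₐ[B] Localization.AtPrime (⊥ : Ideal B) :=
    IsLocalization.algEquiv (nonZeroDivisors B) _ _
  have h2 : Algebra.IsSmoothAt K (⊥ : Ideal B) :=
    Algebra.FormallySmooth.of_equiv (e.restrictScalars K)
  obtain ⟨g, hg, hs⟩ := Algebra.IsSmoothAt.exists_notMem_smooth K (⊥ : Ideal B)
  exact ⟨g, hg, hs⟩

/-- Generic smoothness over a perfect field. -/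
lemma smooth_perfect (K : Type) [Field K] [PerfectField K] [Algebra K B]
    [Algebra.FiniteType K B] : ∃ g : B, g ≠ 0 ∧ Algebra.Smooth K (Localization.Away g) := by
  have : Algebra.FinitePresentation K B := Algebra.FinitePresentation.of_finiteType.mp inferInstance
  have h1 : Algebra.EssFiniteType K (FractionRing B) := by
    have : Algebra.EssFiniteType B (FractionRing B) :=
      Algebra.EssFiniteType.of_isLocalization _ (nonZeroDivisors B)
    exact Algebra.EssFiniteType.comp K B (FractionRing B)
  exact smooth_of_frac B K Algebra.FormallySmooth.of_perfectField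

omit [IsDomain B] in
lemma formallySmooth_int {L : Type} [Field L] [CharZero L] [Algebra.EssFiniteType ℤ L] :
    Algebra.FormallySmooth ℤ L := by
  have h2 : Algebra.EssFiniteType ℚ L := Algebra.EssFiniteType.of_comp ℤ ℚ L
  have h3 : Algebra.FormallySmooth ℚ L := Algebra.FormallySmooth.of_perfectField
  have h4 : Algebra.FormallySmooth ℤ ℚ :=
    Algebra.FormallySmooth.of_isLocalization (nonZeroDivisors ℤ)
  exact Algebra.FormallySmooth.comp ℤ ℚ L

/-- Generic smoothness over the integers. -/
lemma smooth_int [CharZero B] [Algebra.FiniteType ℤ B] :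
    ∃ g : B, g ≠ 0 ∧ Algebra.Smooth ℤ (Localization.Away g) := by
  have : Algebra.FinitePresentation ℤ B := Algebra.FinitePresentation.of_finiteType.mp inferInstance
  have h0 : CharZero (FractionRing B) := charZero_of_injective_algebraMap
    (IsFractionRing.injective B (FractionRing B))
  have h1 : Algebra.EssFiniteType ℤ (FractionRing B) := by
    have : Algebra.EssFiniteType B (FractionRing B) :=
      Algebra.EssFiniteType.of_isLocalization _ (nonZeroDivisors B)
    exact Algebra.EssFiniteType.comp ℤ B (FractionRing B)
  have key : ∀ a : Algebra ℤ (FractionRing B), @Algebra.EssFiniteType ℤ (FractionRing B) _ _ a →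
      @Algebra.FormallySmooth ℤ (FractionRing B) _ _ a := by
    intro a ha
    obtain rfl : a = Ring.toIntAlgebra _ := Subsingleton.elim _ _
    exact formallySmooth_int
  exact smooth_of_frac B ℤ (key _ h1)

end alg

section

variable {R : Type} [CommRing R]

/-- `Sm` is a generic property of affine schemes of finite type over `R`: it is invariant under
isomorphisms, it passes to the open subschemes `D(g)`, and every integral affine scheme has a nonempty
open subscheme `D(g)` with this property. -/
structure Generic (Sm : Sch R → Prop) : Prop where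
  iso : ∀ {X Y : Sch R}, Nonempty (X ≅ Y) → Sm X → Sm Y
  away : ∀ (B : Type) [CommRing B] [Algebra R B] [Algebra.FiniteType R B] (g : B),
    Sm (aff R B) → Sm (aff R (Localization.Away g))
  gen : ∀ (B : Type) [CommRing B] [Algebra R B] [Algebra.FiniteType R B], IsDomain B →
    ∃ g : B, g ≠ 0 ∧ Sm (aff R (Localization.Away g))

/-- `X` is empty, or it is integral and has the property `Sm`. -/
def Good (Sm : Sch R → Prop) (X : Sch R) : Prop := IsEmpty X.left ∨ (IsIntegral X.left ∧ Sm X)

/-- `X` is smooth over `ℤ` or over a field with a prime number of elements. -/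
def SmoothOverPrime (X : Scheme.{0}) : Prop :=
  (∃ f : X ⟶ Spec (CommRingCat.of ℤ), Smooth f) ∨
    ∃ (p : ℕ) (f : X ⟶ Spec (CommRingCat.of (ZMod p))), p.Prime ∧ Smooth f

lemma smooth_spec {K B : Type} [CommRing K] [CommRing B] [Algebra K B] (h : Algebra.Smooth K B) :
    Smooth (Spec.map (CommRingCat.ofHom (algebraMap K B))) := by
  rw [HasRingHomProperty.Spec_iff (P := @Smooth)]
  exact RingHom.smooth_algebraMap.mpr h

lemma smooth_precomp {X Y : Scheme.{0}} (j : Y ⟶ X) [IsOpenImmersion j]
    (h : SmoothOverPrime X) : SmoothOverPrime Y := by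
  rcases h with ⟨f, hf⟩ | ⟨p, f, hp, hf⟩
  · exact Or.inl ⟨j ≫ f, inferInstance⟩
  · exact Or.inr ⟨p, j ≫ f, hp, inferInstance⟩

theorem generic_smooth : Generic (R := ℤ) fun X => SmoothOverPrime X.left where
  iso {X Y} e h := by
    obtain ⟨e⟩ := e
    have h1 : IsIso e.inv.left := inferInstanceAs (IsIso ((Over.forget _).map e.inv))
    exact smooth_precomp e.inv.left h
  away B _ _ _ g h := by
    have : IsOpenImmersion (Spec.map (CommRingCat.ofHom (algebraMap B (Localization.Away g)))) :=
      IsOpenImmersion.of_isLocalization g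
    exact smooth_precomp (X := Spec (.of B)) (Y := Spec (.of (Localization.Away g)))
      (Spec.map (CommRingCat.ofHom (algebraMap B (Localization.Away g)))) h
  gen B _ inst _ _ := by
    obtain rfl : inst = Ring.toIntAlgebra B := Subsingleton.elim _ _
    rcases Nat.eq_zero_or_pos (ringChar B) with h | h
    · have h1 : CharP B 0 := by
        rw [← h]
        infer_instance
      have h2 : CharZero B := CharP.charP_to_charZero B
      obtain ⟨g, hg, hs⟩ := smooth_int B
      exact ⟨g, hg, Or.inl ⟨_, smooth_spec hs⟩⟩
    · have hp : (ringChar B).Prime := (CharP.char_is_prime_or_zero B (ringChar B)).resolve_right h.ne'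
      have : Fact (ringChar B).Prime := ⟨hp⟩
      let : Algebra (ZMod (ringChar B)) B := ZMod.algebra B _
      have : IsScalarTower ℤ (ZMod (ringChar B)) B :=
        IsScalarTower.of_algebraMap_eq' (RingHom.ext_int _ _)
      have : Algebra.FiniteType (ZMod (ringChar B)) B :=
        Algebra.FiniteType.of_restrictScalars_finiteType ℤ (ZMod (ringChar B)) B
      obtain ⟨g, hg, hs⟩ := smooth_perfect B (ZMod (ringChar B))
      exact ⟨g, hg, Or.inr ⟨ringChar B, _, hp, smooth_spec hs⟩⟩

/-- Smoothness over a perfect field is generic. -/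
theorem generic_perfect (K : Type) [Field K] [PerfectField K] :
    Generic (R := K) fun X => Smooth X.hom where
  iso {X Y} e h := by
    obtain ⟨e⟩ := e
    have h1 : IsIso e.inv.left := inferInstanceAs (IsIso ((Over.forget _).map e.inv))
    have h2 : Y.hom = e.inv.left ≫ X.hom := (Over.w e.inv).symm
    rw [h2]
    infer_instance
  away B _ _ _ g h := by
    have h1 : IsOpenImmersion (Spec.map (CommRingCat.ofHom (algebraMap B (Localization.Away g)))) :=
      IsOpenImmersion.of_isLocalization g
    have h2 : (aff K (Localization.Away g)).hom =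
        Spec.map (CommRingCat.ofHom (algebraMap B (Localization.Away g))) ≫ (aff K B).hom := by
      change Spec.map _ = Spec.map _ ≫ Spec.map _
      rw [← Spec.map_comp, ← CommRingCat.ofHom_comp, ← IsScalarTower.algebraMap_eq]
    have h3 : Smooth (aff K B).hom := h
    have h4 : Smooth (Spec.map (CommRingCat.ofHom (algebraMap B (Localization.Away g)))) :=
      SmoothOfRelativeDimension.smooth 0 _
    rw [h2]
    exact MorphismProperty.comp_mem @Smooth _ _ h4 h3
  gen B _ _ _ _ := by
    obtain ⟨g, hg, hs⟩ := smooth_perfect B K
    exact ⟨g, hg, smooth_spec hs⟩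

end

end Pool.Agent.U586.MU
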