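import Pool.Agent.U586.MU.Gen

/-!
# Universality of the integral realization spaces with a generic property
-/

set_option autoImplicit false

open CategoryTheory AlgebraicGeometry MvPolynomial Pool.Agent.Y116.UV

namespace Pool.Agent.U586.MU

variable {R : Type} [CommRing R]

open Classical in
/-- the product of the functions which are not zero -/
noncomputable def nz {A ι : Type} [CommRing A] [Fintype ι] (f : ι → A) : A :=
  ∏ i ∈ Finset.univ.filter fun i => f i ≠ 0, f i

lemma nz_ne {A ι : Type} [CommRing A] [IsDomain A] [Fintype ι] (f : ι → A) : nz f ≠ 0 := by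
  classical
  rw [nz, Finset.prod_ne_zero_iff]
  exact fun i hi => (Finset.mem_filter.mp hi).2

/-- The open stratum of an integral affine scheme. -/
lemma open_str {A ι : Type} [CommRing A] [Algebra R A] [Fintype ι] (f : ι → A) :
    IsStr f {i | f i ≠ 0} (IsScalarTower.toAlgHom R A (Localization.Away (nz f))) where
  zero i hi := by
    have : f i = 0 := by simpa using hi
    rw [this, map_zero]
  unit i hi := by
    have h1 : IsUnit (IsScalarTower.toAlgHom R A (Localization.Away (nz f)) (nz f)) :=
      IsLocalization.Away.algebraMap_isUnit (nz f)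
    classical
    refine isUnit_of_dvd_unit (map_dvd _ ?_) h1
    exact Finset.dvd_prod_of_mem f (Finset.mem_filter.mpr ⟨Finset.mem_univ i, hi⟩)
  lift C _ _ ψ h0 h1 := by
    classical
    apply exists_away_lift
    rw [nz, map_prod, IsUnit.prod_iff]
    exact fun i hi => h1 i (Finset.mem_filter.mp hi).2
  uniq C _ _ χ χ' hc := away_ext _ hc

variable {sep : Prop} {P : Sch R → Prop} {K Sm : Sch R → Prop}

lemma isEmpty_aff (B : Type) [CommRing B] [Algebra R B] [Subsingleton B] :
    IsEmpty (aff R B).left :=
  inferInstanceAs (IsEmpty (PrimeSpectrum B))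

lemma isIntegral_aff (B : Type) [CommRing B] [Algebra R B] (h : IsDomain B) :
    IsIntegral (aff R B).left :=
  inferInstanceAs (IsIntegral (Spec (.of B)))

lemma isDomain_away {B : Type} [CommRing B] [IsDomain B] {g : B} (hg : g ≠ 0) :
    IsDomain (Localization.Away g) :=
  IsLocalization.isDomain_localization (powers_le_nonZeroDivisors_of_noZeroDivisors hg)

/-- the common part of the two proofs -/
theorem gen_aux [IsNoetherianRing R] (hP : Ext sep P) (hK : Hered sep K) (hS : Generic Sm)
    (G : ∀ (B : Type) [CommRing B] [Algebra R B], Prop)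
    (h0 : ∃ (B : Type) (_ : CommRing B) (_ : Algebra R B), Algebra.FiniteType R B ∧
      Subsingleton B ∧ G B)
    (h1 : ∀ (B : Type) [CommRing B] [Algebra R B] [Algebra.FiniteType R B], IsDomain B →
      ∃ (g : B) (_ : g ≠ 0) (C : Type) (_ : CommRing C) (_ : Algebra R C)
        (_ : C ≃ₐ[R] Localization.Away g), Algebra.FiniteType R C ∧ G C)
    (h : ∀ (B : Type) [CommRing B] [Algebra R B], G B → K (aff R B) → Good Sm (aff R B) →
      P (aff R B)) (X : Sch R) (hX : FT sep X) : K X → P X := by
  have hP' := ext_rel hP hK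
  refine of_affine' hP'.iso hP'.total ?_ X hX
  intro A _ _ _
  refine of_generic hP' ?_ ?_ A
  · intro B _ _ hB
    obtain ⟨E, _, _, hf, hE, hG⟩ := h0
    exact hP'.alg (zeroEquiv E B) fun hKE => h E hG hKE (Or.inl (isEmpty_aff E))
  · intro B _ _ _ hB
    obtain ⟨g, hg, hSg⟩ := hS.gen B hB
    have hft : Algebra.FiniteType R (Localization.Away g) :=
      Algebra.FiniteType.trans (S := B) inferInstance inferInstance
    have hD := isDomain_away hg
    obtain ⟨g', hg', C, _, _, e, hC, hG⟩ := h1 (Localization.Away g) hD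
    refine ⟨g, hg, g', hg', hP'.alg e fun hKC => h C hG hKC (Or.inr ⟨?_, ?_⟩)⟩
    · have := isDomain_away hg'
      exact isIntegral_aff C (e.toMulEquiv.isDomain _)
    · exact hS.iso ⟨affIso e⟩ (hS.away _ g' hSg)

/-- **Universality of the integral realization spaces with a generic property.** -/
theorem universal_gen [IsNoetherianRing R] (hR : Presents ({0, 1} : Set R)) (hP : Ext sep P)
    (hK : Hered sep K) (hS : Generic Sm)
    (h : ∀ (E : Type) [Fintype E] (π : Cfg E), K (π.space R) → Good Sm (π.space R) →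
      P (π.space R)) (X : Sch R) (hX : FT sep X) : K X → P X := by
  classical
  refine gen_aux hP hK hS (fun B _ _ => ∃ (E : Type) (_ : Fintype E) (π : Cfg E),
    aff R B = π.space R) ?_ ?_ ?_ X hX
  · exact ⟨emptyCfg.Ring R, inferInstance, inferInstance, inferInstance, subsingleton_emptyCfg,
      Unit, inferInstance, emptyCfg, rfl⟩
  · intro B _ _ _ hB
    obtain ⟨T, z, o, ht⟩ := exists_tab hR B
    obtain ⟨e⟩ := stratum_iso ht (σ := {x | det3 (gridM (Subtype.val : T → B)) x ≠ 0})
      (fun x hx => hx) (open_str (R := R) (det3 (gridM (Subtype.val : T → B))))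
    exact ⟨nz (det3 (gridM (Subtype.val : T → B))), nz_ne _, _, _, _, e, inferInstance,
      _, inferInstance, _, rfl⟩
  · rintro B _ _ ⟨E, _, π, hπ⟩ hKB hGB
    rw [hπ] at hKB hGB ⊢
    exact h E π hKB hGB

/-- **Universality of the unit equation**, with a generic property. -/
theorem unit_universal_gen [IsNoetherianRing R] (hR : Presents ({0, 1} : Set R)) (hP : Ext sep P)
    (hK : Hered sep K) (hS : Generic Sm)
    (h : ∀ (I : Type) [Fintype I] (S : Set (SBin (I ⊕ I))), K (uspace R S) →
      Good Sm (uspace R S) → P (uspace R S)) (X : Sch R) (hX : FT sep X) : K X → P X := by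
  classical
  refine gen_aux hP hK hS (fun B _ _ => ∃ (I : Type) (_ : Fintype I) (S : Set (SBin (I ⊕ I))),
    aff R B = uspace R S) ?_ ?_ ?_ X hX
  · exact ⟨URing R badU, inferInstance, inferInstance, inferInstance, subsingleton_badU,
      Unit, inferInstance, badU, rfl⟩
  · intro B _ _ _ hB
    obtain ⟨T, z, o, ht⟩ := exists_tab hR B
    have hD := isDomain_away (nz_ne (tf (Subtype.val : T → B)))
    obtain ⟨e⟩ := ustratum_iso ht (open_str (R := R) (tf (Subtype.val : T → B))) _ rfl
    exact ⟨nz (tf (Subtype.val : T → B)), nz_ne _, _, _, _, e, inferInstance,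
      _, inferInstance, _, rfl⟩
  · rintro B _ _ ⟨I, _, S, hS⟩ hKB hGB
    rw [hS] at hKB hGB ⊢
    exact h I S hKB hGB

/-- The three assertions are equivalent. -/
theorem three_gen [IsNoetherianRing R] (hR : Presents ({0, 1} : Set R)) (hP : Ext sep P)
    (hK : Hered sep K) (hS : Generic Sm) :
    ((∀ X : Sch R, FT sep X → K X → P X) ↔
      ∀ (E : Type) [Fintype E] (π : Cfg E), K (π.space R) → Good Sm (π.space R) → P (π.space R)) ∧
    ((∀ X : Sch R, FT sep X → K X → P X) ↔
      ∀ (I : Type) [Fintype I] (S : Set (SBin (I ⊕ I))), K (uspace R S) →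
        Good Sm (uspace R S) → P (uspace R S)) :=
  ⟨⟨fun h _ _ _ hK' _ => h _ (ft_aff sep) hK', fun h X hX => universal_gen hR hP hK hS h X hX⟩,
    ⟨fun h _ _ _ hK' _ => h _ (ft_aff sep) hK', fun h X hX => unit_universal_gen hR hP hK hS h X hX⟩⟩

end Pool.Agent.U586.MU
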