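import Pool.Agent.U586.MU.Real

/-!
# Grids

For elements `t i` of a ring with `t z = 0` and `t o = 1` the grid consists of the points
`(t i : t j : 1)`, of the points `(1 : - t i : 0)` and of the point `(0 : 1 : 0)`.
-/

set_option autoImplicit false

open MvPolynomial Pool.Agent.Y116.UV

namespace Pool.Agent.U586.MU

/-- the labels of the points of a grid -/
abbrev GE (κ : Type) : Type := (κ × κ) ⊕ κ ⊕ Unit

section

variable {κ : Type}

/-- the point `(t i : t j : 1)` -/
def gp (i j : κ) : GE κ := Sum.inl (i, j)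

/-- the point at infinity of slope `- t i` -/
def gm (i : κ) : GE κ := Sum.inr (Sum.inl i)

/-- the vertical point at infinity -/
def gv : GE κ := Sum.inr (Sum.inr ())

/-- the homogeneous coordinates of the points of the grid -/
def gridM {A : Type} [CommRing A] (t : κ → A) (r : Fin 3) : GE κ → A
  | Sum.inl (i, j) => ![t i, t j, 1] r
  | Sum.inr (Sum.inl i) => ![1, - t i, 0] r
  | Sum.inr (Sum.inr ()) => ![0, 1, 0] r

/-- the type of a grid -/
def gridCfg (z o : κ) (D : Set (GE κ × GE κ × GE κ)) : Cfg (GE κ) where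
  frame := ![gm z, gv, gp z z, gp o o]
  norm
    | Sum.inl _ => 2
    | Sum.inr (Sum.inl _) => 0
    | Sum.inr (Sum.inr _) => 1
  dep := D

section grid

variable {A : Type} [CommRing A] (t : κ → A)

@[simp] lemma gridM_p (r : Fin 3) (i j : κ) : gridM t r (gp i j) = ![t i, t j, 1] r := rfl
@[simp] lemma gridM_m (r : Fin 3) (i : κ) : gridM t r (gm i) = ![1, - t i, 0] r := rfl
@[simp] lemma gridM_v (r : Fin 3) : gridM t r (gv : GE κ) = ![0, 1, 0] r := rfl

lemma gridM_map {B : Type} [CommRing B] {F : Type} [FunLike F A B] [RingHomClass F A B] (φ : F)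
    (r : Fin 3) (e : GE κ) : φ (gridM t r e) = gridM (fun i => φ (t i)) r e := by
  rcases e with ⟨i, j⟩ | i | _ <;> fin_cases r <;> simp [gridM]

theorem grid_real {z o : κ} {D : Set (GE κ × GE κ × GE κ)} (hz : t z = 0) (ho : t o = 1)
    (h0 : ∀ x ∈ D, det3 (gridM t) x = 0) (h1 : ∀ x ∉ D, IsUnit (det3 (gridM t) x)) :
    IsReal (gridCfg z o D) (gridM t) where
  frame r s := by
    fin_cases s <;> fin_cases r <;> simp [gridCfg, Fin.castSucc, hz]
  frame' r := by
    fin_cases r <;> simp [gridCfg, Fin.last, ho]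
  norm e := by
    rcases e with ⟨i, j⟩ | i | _ <;> simp [gridCfg, gridM]
  dep x hx := h0 x hx
  indep x hx := h1 x hx

end grid

/-- The matrix of a configuration which contains the basic collinearities is the one of a grid. -/
theorem grid_of_real {C : Type} [CommRing C] {z o : κ} {D : Set (GE κ × GE κ × GE κ)}
    {M : Fin 3 → GE κ → C} (hM : IsReal (gridCfg z o D) M)
    (b1 : ∀ i j, (gp i j, gp i z, gv) ∈ D) (b2 : ∀ i j, (gp i j, gp z j, gm z) ∈ D)
    (b3 : ∀ i, (gm i, gm z, gv) ∈ D) (b4 : ∀ i, (gp o z, gp z i, gm i) ∈ D)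
    (b5 : ∀ i, (gp i z, gp z i, gm o) ∈ D) :
    ∃ t : κ → C, t z = 0 ∧ t o = 1 ∧ M = gridM t := by
  have n2 : ∀ i j, M 2 (gp i j) = 1 := fun i j => hM.norm (gp i j)
  have n0 : ∀ i, M 0 (gm i) = 1 := fun i => hM.norm (gm i)
  have v0 : M 0 gv = 0 := hM.frame 0 1
  have v1 : M 1 gv = 1 := hM.frame 1 1
  have v2 : M 2 gv = 0 := hM.frame 2 1
  have z0 : M 0 (gp z z) = 0 := hM.frame 0 2
  have z1 : M 1 (gp z z) = 0 := hM.frame 1 2
  have m0 : M 0 (gm z) = 1 := hM.frame 0 0
  have m1 : M 1 (gm z) = 0 := hM.frame 1 0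
  have m2 : M 2 (gm z) = 0 := hM.frame 2 0
  have o0 : M 0 (gp o o) = 1 := hM.frame' 0
  have o1 : M 1 (gp o o) = 1 := hM.frame' 1
  have c1 : ∀ i j, M 0 (gp i j) = M 0 (gp i z) := fun i j => by
    have := hM.dep _ (b1 i j)
    rw [det3_eq] at this
    simp only [v0, v1, v2, n2] at this
    linear_combination -this
  have c2 : ∀ i j, M 1 (gp i j) = M 1 (gp z j) := fun i j => by
    have := hM.dep _ (b2 i j)
    rw [det3_eq] at this
    simp only [m0, m1, m2, n2] at this
    linear_combination this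
  have c3 : ∀ i, M 2 (gm i) = 0 := fun i => by
    have := hM.dep _ (b3 i)
    rw [det3_eq] at this
    simp only [v0, v1, v2, m0, m1, m2, n0] at this
    linear_combination this
  have c4 : ∀ i, M 1 (gp i z) = 0 := fun i => (c2 i z).trans z1
  have c5 : ∀ i, M 0 (gp z i) = 0 := fun i => (c1 z i).trans z0
  have c6 : M 0 (gp o z) = 1 := (c1 o o).symm.trans o0
  have c7 : M 1 (gp z o) = 1 := (c2 o o).symm.trans o1
  have c8 : ∀ i, M 1 (gm i) = - M 1 (gp z i) := fun i => by
    have := hM.dep _ (b4 i)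
    rw [det3_eq] at this
    simp only [n0, n2, c3, c4, c5, c6] at this
    linear_combination -this
  have c9 : ∀ i, M 1 (gp z i) = M 0 (gp i z) := fun i => by
    have := hM.dep _ (b5 i)
    rw [det3_eq] at this
    simp only [n0, n2, c3, c4, c5, c8, c7] at this
    linear_combination -this
  refine ⟨fun i => M 0 (gp i z), z0, c6, ?_⟩
  funext r e
  rcases e with ⟨i, j⟩ | i | _
  · fin_cases r
    · exact c1 i j
    · exact (c2 i j).trans (c9 j)
    · exact n2 i j
  · fin_cases r
    · exact n0 i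
    · exact (c8 i).trans (congrArg _ (c9 i))
    · exact c3 i
  · fin_cases r
    · exact v0
    · exact v1
    · exact v2

section relations

variable {A : Type} [CommRing A] (t : κ → A)

lemma det_b1 {z : κ} (hz : t z = 0) (i j : κ) : det3 (gridM t) (gp i j, gp i z, gv) = 0 := by
  rw [det3_eq]; simp [hz]

lemma det_b2 {z : κ} (hz : t z = 0) (i j : κ) : det3 (gridM t) (gp i j, gp z j, gm z) = 0 := by
  rw [det3_eq]; simp [hz]

lemma det_b3 (z i : κ) : det3 (gridM t) (gm i, gm z, gv) = 0 := by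
  rw [det3_eq]; simp

lemma det_b4 {z o : κ} (hz : t z = 0) (ho : t o = 1) (i : κ) :
    det3 (gridM t) (gp o z, gp z i, gm i) = 0 := by
  rw [det3_eq]; simp [hz, ho]

lemma det_b5 {z o : κ} (hz : t z = 0) (ho : t o = 1) (i : κ) :
    det3 (gridM t) (gp i z, gp z i, gm o) = 0 := by
  rw [det3_eq]; simp [hz, ho]

/-- the collinearity for `t i + t j = t k` -/
lemma det_add {z o : κ} (hz : t z = 0) (ho : t o = 1) (i j k : κ) :
    det3 (gridM t) (gp i j, gp k z, gm o) = t i + t j - t k := by
  rw [det3_eq]; simp [hz, ho]; ring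

/-- the collinearity for `t i * t j = t k` -/
lemma det_mul {z : κ} (hz : t z = 0) (i j k : κ) :
    det3 (gridM t) (gp i z, gm j, gp z k) = t k - t i * t j := by
  rw [det3_eq]; simp [hz]; ring

end relations

end

end Pool.Agent.U586.MU
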