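import Pool.Agent.U586.MU.Tab

/-!
# Realization spaces decide every property closed under gluing a closed and an open part
-/

set_option autoImplicit false

open CategoryTheory AlgebraicGeometry MvPolynomial Pool.Agent.Y116.UV

namespace Pool.Agent.U586.MU

variable {R : Type} [CommRing R] {sep : Prop} {P : Sch R → Prop}

/-- The property `P` of schemes (separated, if `sep` is true) of finite type over `R` is invariant under
isomorphisms, and a scheme has it if a closed subscheme and the open complement have it. -/
structure Ext (sep : Prop) (P : Sch R → Prop) : Prop where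
  iso : ∀ {X Y : Sch R}, FT sep X → Nonempty (X ≅ Y) → P X → P Y
  total : ∀ {Z X U : Sch R} (i : Z ⟶ X) (j : U ⟶ X), FT sep X → IsTriple i j → P Z → P U → P X

lemma Ext.alg (hP : Ext sep P) {A B : Type} [CommRing A] [CommRing B] [Algebra R A] [Algebra R B]
    [Algebra.FiniteType R A] (e : A ≃ₐ[R] B) (h : P (aff R A)) : P (aff R B) :=
  hP.iso (ft_aff sep) ⟨(affIso e).symm⟩ h

lemma Ext.split (hP : Ext sep P) (A : Type) [CommRing A] [Algebra R A] [Algebra.FiniteType R A]
    (w : A) (h1 : P (aff R (A ⧸ Ideal.span {w}))) (h2 : P (aff R (Localization.Away w))) :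
    P (aff R A) :=
  hP.total _ _ (ft_aff sep) (triple_away w) h1 h2

/-- algebras with one element -/
noncomputable def zeroEquiv (A B : Type) [CommRing A] [CommRing B] [Algebra R A] [Algebra R B]
    [Subsingleton A] [Subsingleton B] : A ≃ₐ[R] B :=
  AlgEquiv.ofRingEquiv (f := { toFun := fun _ => 0
                               invFun := fun _ => 0
                               left_inv := fun _ => Subsingleton.elim _ _
                               right_inv := fun _ => Subsingleton.elim _ _
                               map_mul' := fun _ _ => Subsingleton.elim _ _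
                               map_add' := fun _ _ => Subsingleton.elim _ _ })
    (fun _ => Subsingleton.elim _ _)

/-- a type without realizations -/
def emptyCfg : Cfg Unit := ⟨fun _ => (), fun _ => 0, ∅⟩

lemma subsingleton_emptyCfg : Subsingleton (emptyCfg.Ring R) := by
  have h := isReal_univ emptyCfg (R := R)
  have h1 := h.frame 0 0
  have h2 := h.frame 0 1
  rw [if_pos rfl] at h1
  rw [if_neg (by decide)] at h2
  exact subsingleton_of_zero_eq_one (h2.symm.trans h1)

/-- **Universality of the realization spaces.** If every algebra of finite type over `R` has a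
presentation with coefficients `0` and `1` (for example if `R` is `ℤ`, `ℚ` or a prime field), then a
property which is closed under gluing a closed and an open part, and which holds for the realization
spaces of the configurations of points of the projective plane, holds for all schemes of finite type. -/
theorem universal (hR : Presents ({0, 1} : Set R)) (hP : Ext sep P)
    (h : ∀ (E : Type) [Fintype E] (π : Cfg E), P (π.space R)) (X : Sch R) (hX : FT sep X) : P X := by
  classical
  refine of_affine' hP.iso hP.total ?_ X hX
  intro A _ _ _
  obtain ⟨T, z, o, ht⟩ := exists_tab hR A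
  refine of_strata' hP.split A (det3 (gridM (Subtype.val : T → A))) ?_
  intro σ B _ _ _ φ hφ
  by_cases hσ : ∀ x ∈ σ, det3 (gridM (Subtype.val : T → A)) x ≠ 0
  · obtain ⟨e⟩ := stratum_iso ht hσ hφ
    exact hP.alg e (h _ _)
  · push Not at hσ
    obtain ⟨x, hx, hx0⟩ := hσ
    have h1 := hφ.unit x hx
    rw [hx0, map_zero, isUnit_zero_iff] at h1
    have : Subsingleton B := subsingleton_of_zero_eq_one h1
    have : Subsingleton (emptyCfg.Ring R) := subsingleton_emptyCfg
    exact hP.alg (zeroEquiv (emptyCfg.Ring R) B) (h _ emptyCfg)

/-- The class `K` of schemes contains with a scheme all its closed and open subschemes. -/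
structure Hered (sep : Prop) (K : Sch R → Prop) : Prop where
  iso : ∀ {X Y : Sch R}, FT sep X → Nonempty (X ≅ Y) → K X → K Y
  sub : ∀ {Z X U : Sch R} (i : Z ⟶ X) (j : U ⟶ X), FT sep X → IsTriple i j → K X → K Z ∧ K U

lemma ft_iso {X Y : Sch R} (hX : FT sep X) (e : X ≅ Y) : FT sep Y := by
  have h0 : IsIso e.inv.left := inferInstanceAs (IsIso ((Over.forget _).map e.inv))
  have h3 : Y.hom = e.inv.left ≫ X.hom := (Over.w e.inv).symm
  refine ⟨?_, ?_, fun hs => ?_⟩
  · have h1 := hX.locallyOfFiniteType
    rw [h3]
    infer_instance
  · have h2 := hX.quasiCompact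
    rw [h3]
    infer_instance
  · have h4 := hX.separated hs
    rw [h3]
    infer_instance

/-- The relative version, for a hereditary class of schemes, for example for the schemes of dimension at
most `d`. -/
theorem universal_in (hR : Presents ({0, 1} : Set R)) (hP : Ext sep P) {K : Sch R → Prop}
    (hK : Hered sep K) (h : ∀ (E : Type) [Fintype E] (π : Cfg E), K (π.space R) → P (π.space R))
    (X : Sch R) (hX : FT sep X) : K X → P X := by
  have hKP : Ext sep fun X : Sch R => K X → P X :=
    { iso := fun {X Y} hX e h hY => hP.iso hX e
        (h (hK.iso (X := Y) (Y := X) (ft_iso hX e.some) ⟨e.some.symm⟩ hY))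
      total := fun i j hX ht hZ hU hKX =>
        hP.total i j hX ht (hZ (hK.sub i j hX ht hKX).1) (hU (hK.sub i j hX ht hKX).2) }
  exact universal hR hKP (fun E _ π => h E π) X hX

end Pool.Agent.U586.MU
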