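import Pool.Agent.U586.MU.Rel

/-!
# Noetherian induction: locally closed parts of an affine scheme
-/

set_option autoImplicit false

open CategoryTheory AlgebraicGeometry MvPolynomial Pool.Agent.Y116.UV

namespace Pool.Agent.U586.MU

variable {R : Type} [CommRing R]

/-- `B` is the ring of functions on the part of `Spec A` where the elements of `I` are zero and `f` is
invertible. -/
structure IsPart {A B : Type} [CommRing A] [Algebra R A] [CommRing B] [Algebra R B] (I : Ideal A)
    (f : A) (φ : A →ₐ[R] B) : Prop where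
  zero : ∀ a ∈ I, φ a = 0
  unit : IsUnit (φ f)
  lift : ∀ (C : Type) [CommRing C] [Algebra R C] (ψ : A →ₐ[R] C), (∀ a ∈ I, ψ a = 0) →
    IsUnit (ψ f) → ∃ χ : B →ₐ[R] C, χ.comp φ = ψ
  uniq : ∀ (C : Type) [CommRing C] [Algebra R C] (χ χ' : B →ₐ[R] C), χ.comp φ = χ'.comp φ → χ = χ'

section

variable {A B B' : Type} [CommRing A] [Algebra R A] [CommRing B] [Algebra R B] [CommRing B']
  [Algebra R B'] {I : Ideal A} {f : A}

lemma IsPart.equiv {φ : A →ₐ[R] B} {φ' : A →ₐ[R] B'} (h : IsPart I f φ) (h' : IsPart I f φ') :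
    ∃ e : B ≃ₐ[R] B', ∀ a, e (φ a) = φ' a := by
  obtain ⟨χ, hχ⟩ := h.lift B' φ' h'.zero h'.unit
  obtain ⟨χ', hχ'⟩ := h'.lift B φ h.zero h.unit
  refine ⟨AlgEquiv.ofAlgHom χ χ' ?_ ?_, fun a => congrArg (fun g : A →ₐ[R] B' => g a) hχ⟩
  · apply h'.uniq
    rw [AlgHom.comp_assoc, hχ', hχ, AlgHom.id_comp]
  · apply h.uniq
    rw [AlgHom.comp_assoc, hχ, hχ', AlgHom.id_comp]

/-- the lift to a localization away from an element -/
lemma exists_away_lift {D : Type} [CommRing D] [Algebra R D] (g : D) {C : Type} [CommRing C]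
    [Algebra R C] (ψ : D →ₐ[R] C) (h : IsUnit (ψ g)) : ∃ χ : Localization.Away g →ₐ[R] C,
      χ.comp (IsScalarTower.toAlgHom R D (Localization.Away g)) = ψ := by
  have hu : ∀ y : Submonoid.powers g, IsUnit ((ψ : D →+* C) y) := by
    rintro ⟨_, n, rfl⟩
    change IsUnit (ψ (g ^ n))
    rw [map_pow]
    exact h.pow n
  refine ⟨{ (IsLocalization.lift (M := Submonoid.powers g) hu : Localization.Away g →+* C) with
        commutes' := by
          intro r
          change IsLocalization.lift (M := Submonoid.powers g) hu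
            (algebraMap R (Localization.Away g) r) = _
          rw [IsScalarTower.algebraMap_apply R D (Localization.Away g),
            IsLocalization.lift_eq]
          exact ψ.commutes r }, ?_⟩
  ext a
  exact IsLocalization.lift_eq (M := Submonoid.powers g) hu a

lemma away_ext {D : Type} [CommRing D] [Algebra R D] (g : D) {C : Type} [CommRing C]
    [Algebra R C] {χ χ' : Localization.Away g →ₐ[R] C}
    (h : χ.comp (IsScalarTower.toAlgHom R D (Localization.Away g)) =
      χ'.comp (IsScalarTower.toAlgHom R D (Localization.Away g))) : χ = χ' := by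
  apply AlgHom.coe_ringHom_injective
  apply IsLocalization.ringHom_ext (Submonoid.powers g)
  ext a
  exact congrArg (fun f : D →ₐ[R] C => f a) h

variable (I f)

/-- the standard part -/
noncomputable def stdPart : A →ₐ[R] Localization.Away (Ideal.Quotient.mk I f) :=
  (IsScalarTower.toAlgHom R (A ⧸ I) (Localization.Away (Ideal.Quotient.mk I f))).comp
    (Ideal.Quotient.mkₐ R I)

lemma isPart_std : IsPart I f (stdPart (R := R) I f) where
  zero a ha := by
    have : Ideal.Quotient.mkₐ R I a = 0 := Ideal.Quotient.eq_zero_iff_mem.mpr ha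
    rw [stdPart, AlgHom.comp_apply, this, map_zero]
  unit := IsLocalization.Away.algebraMap_isUnit (Ideal.Quotient.mk I f)
  lift C _ _ ψ h0 h1 := by
    let ψ' : (A ⧸ I) →ₐ[R] C := Ideal.Quotient.liftₐ I ψ h0
    have hψ : ψ'.comp (Ideal.Quotient.mkₐ R I) = ψ := by
      ext a; rfl
    have h2 : IsUnit (ψ' (Ideal.Quotient.mk I f)) := h1
    obtain ⟨χ, hχ⟩ := exists_away_lift _ ψ' h2
    exact ⟨χ, by rw [stdPart, ← AlgHom.comp_assoc, hχ, hψ]⟩
  uniq C _ _ χ χ' hc := by
    apply away_ext
    rw [stdPart, ← AlgHom.comp_assoc, ← AlgHom.comp_assoc] at hc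
    ext a
    obtain ⟨b, rfl⟩ := Ideal.Quotient.mkₐ_surjective R _ a
    exact congrArg (fun g : A →ₐ[R] C => g b) hc

variable {I f}

lemma isPart_id : IsPart (⊥ : Ideal A) 1 (AlgHom.id R A) where
  zero a ha := ha
  unit := by simp
  lift C _ _ ψ _ _ := ⟨ψ, AlgHom.comp_id ψ⟩
  uniq C _ _ χ χ' hc := by rwa [AlgHom.comp_id, AlgHom.comp_id] at hc

lemma isPart_quot {φ : A →ₐ[R] B} (h : IsPart I f φ) (a : A) :
    IsPart (I ⊔ Ideal.span {a}) f ((Ideal.Quotient.mkₐ R (Ideal.span {φ a})).comp φ) where
  zero b hb := by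
    have : I ⊔ Ideal.span {a} ≤
        RingHom.ker ((Ideal.Quotient.mkₐ R (Ideal.span {φ a})).comp φ) := by
      rw [sup_le_iff, Ideal.span_singleton_le_iff_mem]
      refine ⟨fun c hc => ?_, ?_⟩
      · rw [RingHom.mem_ker, AlgHom.comp_apply, h.zero c hc, map_zero]
      · rw [RingHom.mem_ker, AlgHom.comp_apply]
        exact Ideal.Quotient.eq_zero_iff_mem.mpr (Ideal.mem_span_singleton_self _)
    exact this hb
  unit := h.unit.map (Ideal.Quotient.mkₐ R (Ideal.span {φ a}))
  lift C _ _ ψ h0 h1 := by
    obtain ⟨χ, hχ⟩ := h.lift C ψ (fun b hb => h0 b (Ideal.mem_sup_left hb)) h1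
    have ha : χ (φ a) = 0 := by
      have h2 := congrArg (fun g : A →ₐ[R] C => g a) hχ
      exact h2.trans (h0 a (Ideal.mem_sup_right (Ideal.mem_span_singleton_self a)))
    refine ⟨Ideal.Quotient.liftₐ _ χ fun b hb => ?_, ?_⟩
    · obtain ⟨c, rfl⟩ := Ideal.mem_span_singleton'.mp hb
      rw [map_mul, ha, mul_zero]
    · rw [← hχ]
      ext b
      rfl
  uniq C _ _ χ χ' hc := by
    rw [← AlgHom.comp_assoc, ← AlgHom.comp_assoc] at hc
    have h2 := h.uniq C _ _ hc
    ext b
    obtain ⟨c, rfl⟩ := Ideal.Quotient.mkₐ_surjective R _ b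
    exact congrArg (fun g : B →ₐ[R] C => g c) h2

lemma isPart_loc {φ : A →ₐ[R] B} (h : IsPart I f φ) (a : A) :
    IsPart I (f * a) ((IsScalarTower.toAlgHom R B (Localization.Away (φ a))).comp φ) where
  zero b hb := by rw [AlgHom.comp_apply, h.zero b hb, map_zero]
  unit := by
    rw [map_mul]
    exact (h.unit.map (IsScalarTower.toAlgHom R B (Localization.Away (φ a)))).mul
      (IsLocalization.Away.algebraMap_isUnit (φ a))
  lift C _ _ ψ h0 h1 := by
    rw [map_mul, IsUnit.mul_iff] at h1
    obtain ⟨χ, hχ⟩ := h.lift C ψ h0 h1.1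
    have ha : IsUnit (χ (φ a)) := by
      have h2 : χ (φ a) = ψ a := congrArg (fun g : A →ₐ[R] C => g a) hχ
      rw [h2]
      exact h1.2
    obtain ⟨χ', hχ'⟩ := exists_away_lift _ χ ha
    exact ⟨χ', by rw [← AlgHom.comp_assoc, hχ', hχ]⟩
  uniq C _ _ χ χ' hc := by
    rw [← AlgHom.comp_assoc, ← AlgHom.comp_assoc] at hc
    exact away_ext _ (h.uniq C _ _ hc)

lemma isPart_ann {φ : A →ₐ[R] B} {a b : A} (hab : a * b ∈ I) (h : IsPart I (f * a) φ) :
    IsPart (I ⊔ Ideal.span {b}) (f * a) φ where
  zero c hc := by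
    have hu := h.unit
    rw [map_mul, IsUnit.mul_iff] at hu
    have hb : φ b = 0 := by
      have h2 := h.zero _ hab
      rw [map_mul] at h2
      exact (hu.2.mul_right_eq_zero).mp h2
    have : I ⊔ Ideal.span {b} ≤ RingHom.ker φ := by
      rw [sup_le_iff, Ideal.span_singleton_le_iff_mem]
      exact ⟨fun c hc => h.zero c hc, hb⟩
    exact this hc
  unit := h.unit
  lift C _ _ ψ h0 h1 := h.lift C ψ (fun c hc => h0 c (Ideal.mem_sup_left hc)) h1
  uniq := h.uniq

/-- Every element of `B` is, up to units, the image of an element of `A`. -/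
lemma IsPart.exists_assoc {φ : A →ₐ[R] B} (h : IsPart I f φ) (g : B) :
    ∃ a : A, Ideal.span {g} = Ideal.span {φ a} := by
  obtain ⟨e, he⟩ := (isPart_std (R := R) I f).equiv h
  obtain ⟨⟨x, ⟨y, hy⟩⟩, hxy⟩ := IsLocalization.surj (Submonoid.powers (Ideal.Quotient.mk I f))
    (e.symm g)
  obtain ⟨a, rfl⟩ := Ideal.Quotient.mk_surjective x
  have h1 : IsUnit (algebraMap (A ⧸ I) (Localization.Away (Ideal.Quotient.mk I f)) y) :=
    IsLocalization.map_units _ (⟨y, hy⟩ : Submonoid.powers (Ideal.Quotient.mk I f))
  refine ⟨a, ?_⟩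
  have h2 : g * e (algebraMap (A ⧸ I) (Localization.Away (Ideal.Quotient.mk I f)) y) = φ a := by
    rw [← he a]
    have h3 := congrArg e hxy
    rw [map_mul, AlgEquiv.apply_symm_apply] at h3
    exact h3
  rw [← h2]
  exact (Ideal.span_singleton_mul_right_unit (h1.map e) g).symm

lemma IsPart.isDomain {φ : A →ₐ[R] B} (h : IsPart I f φ) (hI : I.IsPrime) (hf : f ∉ I) :
    IsDomain B := by
  obtain ⟨e, -⟩ := h.equiv (isPart_std (R := R) I f)
  have h1 : IsDomain (A ⧸ I) := Ideal.Quotient.isDomain I
  have h2 : (Ideal.Quotient.mk I f) ≠ 0 := fun h => hf (Ideal.Quotient.eq_zero_iff_mem.mp h)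
  have h3 : IsDomain (Localization.Away (Ideal.Quotient.mk I f)) :=
    IsLocalization.isDomain_localization (powers_le_nonZeroDivisors_of_noZeroDivisors h2)
  exact e.toMulEquiv.isDomain _

end

variable {sep : Prop} {P : Sch R → Prop}

/-- Noetherian induction: a property which is closed under gluing a closed and an open part holds for all
affine schemes of finite type, if it holds for the empty scheme and for a nonempty open part of an open
part of every integral affine scheme. -/
theorem of_generic [IsNoetherianRing R] (hP : Ext sep P)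
    (h0 : ∀ (B : Type) [CommRing B] [Algebra R B], Subsingleton B → P (aff R B))
    (hgen : ∀ (B : Type) [CommRing B] [Algebra R B] [Algebra.FiniteType R B], IsDomain B →
      ∃ (g : B) (_ : g ≠ 0) (g' : Localization.Away g), g' ≠ 0 ∧
        P (aff R (Localization.Away g')))
    (A : Type) [CommRing A] [Algebra R A] [Algebra.FiniteType R A] : P (aff R A) := by
  have : IsNoetherianRing A := Algebra.FiniteType.isNoetherianRing R A
  suffices h : ∀ (I : Ideal A) (f : A) (B : Type) [CommRing B] [Algebra R B]
      [Algebra.FiniteType R B] (φ : A →ₐ[R] B), IsPart I f φ → P (aff R B) from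
    h ⊥ 1 A (AlgHom.id R A) isPart_id
  intro I
  induction I using WellFoundedGT.induction with
  | ind I ih =>
  have sub : ∀ {B : Type} [CommRing B] [Algebra R B] {φ : A →ₐ[R] B},
      (∀ a ∈ I, φ a = 0) → ∀ {a : A}, φ a ≠ 0 → I < I ⊔ Ideal.span {a} := by
    intro B _ _ φ hφ a ha
    refine lt_of_le_of_ne le_sup_left fun h => ha (hφ a ?_)
    rw [h]
    exact Ideal.mem_sup_right (Ideal.mem_span_singleton_self a)
  -- splitting off the zeros of an element
  have step : ∀ (f : A) (B : Type) [CommRing B] [Algebra R B] [Algebra.FiniteType R B]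
      (φ : A →ₐ[R] B), IsPart I f φ → ∀ g : B, g ≠ 0 → P (aff R (Localization.Away g)) →
        P (aff R B) := by
    intro f B _ _ _ φ hφ g hg hPg
    obtain ⟨a, ha⟩ := hφ.exists_assoc g
    have ha0 : φ a ≠ 0 := fun h => hg (by
      rw [h] at ha
      have : g ∈ Ideal.span {(0 : B)} := ha ▸ Ideal.mem_span_singleton_self g
      simpa using this)
    refine hP.split B g ?_ hPg
    rw [ha]
    exact ih _ (sub hφ.zero ha0) f _ _ (isPart_quot hφ a)
  intro f B _ _ _ φ hφ
  by_cases hI : I.IsPrime
  · by_cases hf : f ∈ I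
    · have h1 := hφ.unit
      rw [hφ.zero f hf, isUnit_zero_iff] at h1
      exact h0 B (subsingleton_of_zero_eq_one h1)
    · obtain ⟨g, hg, g', hg', hP'⟩ := hgen B (hφ.isDomain hI hf)
      have hft : Algebra.FiniteType R (Localization.Away g) :=
        Algebra.FiniteType.trans (S := B) inferInstance inferInstance
      refine step f B φ hφ g hg ?_
      obtain ⟨a, ha⟩ := hφ.exists_assoc g
      -- the localization away from `g` is a part
      have hass : Associated g (φ a) := by
        have := hφ.isDomain hI hf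
        exact Ideal.span_singleton_eq_span_singleton.mp ha
      obtain ⟨u, hu⟩ := hass
      have hpart : IsPart I (f * a)
          ((IsScalarTower.toAlgHom R B (Localization.Away g)).comp φ) := by
        refine ⟨fun b hb => by rw [AlgHom.comp_apply, hφ.zero b hb, map_zero], ?_, ?_, ?_⟩
        · rw [map_mul]
          refine (hφ.unit.map (IsScalarTower.toAlgHom R B (Localization.Away g))).mul ?_
          rw [AlgHom.comp_apply, ← hu, map_mul]
          exact (IsLocalization.Away.algebraMap_isUnit g).mul
            (u.isUnit.map (IsScalarTower.toAlgHom R B (Localization.Away g)))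
        · intro C _ _ ψ e0 e1
          rw [map_mul, IsUnit.mul_iff] at e1
          obtain ⟨χ, hχ⟩ := hφ.lift C ψ e0 e1.1
          have ha : IsUnit (χ g) := by
            have h2 : χ (φ a) = ψ a := congrArg (fun g : A →ₐ[R] C => g a) hχ
            have h3 := e1.2
            rw [← h2, ← hu, map_mul, IsUnit.mul_iff] at h3
            exact h3.1
          obtain ⟨χ', hχ'⟩ := exists_away_lift _ χ ha
          exact ⟨χ', by rw [← AlgHom.comp_assoc, hχ', hχ]⟩
        · intro C _ _ χ χ' hc
          rw [← AlgHom.comp_assoc, ← AlgHom.comp_assoc] at hc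
          exact away_ext _ (hφ.uniq C _ _ hc)
      exact step (f * a) _ _ hpart g' hg' hP'
  · rw [Ideal.isPrime_iff, not_and_or] at hI
    rcases hI with hI | hI
    · push Not at hI
      have h1 := hφ.zero 1 (by rw [hI]; trivial)
      rw [map_one] at h1
      exact h0 B (subsingleton_of_zero_eq_one h1.symm)
    · push Not at hI
      obtain ⟨x, y, hxy, hx, hy⟩ := hI
      have hft : Algebra.FiniteType R (Localization.Away (φ x)) :=
        Algebra.FiniteType.trans (S := B) inferInstance inferInstance
      refine hP.split B (φ x) ?_ ?_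
      · refine ih _ ?_ f _ _ (isPart_quot hφ x)
        refine lt_of_le_of_ne le_sup_left fun h => hx ?_
        rw [h]
        exact Ideal.mem_sup_right (Ideal.mem_span_singleton_self x)
      · refine ih _ ?_ (f * x) _ _ (isPart_ann hxy (isPart_loc hφ x))
        refine lt_of_le_of_ne le_sup_left fun h => hy ?_
        rw [h]
        exact Ideal.mem_sup_right (Ideal.mem_span_singleton_self y)

/-- Noetherian induction, second form: one may assume the property for the proper principal closed
subschemes of an integral affine scheme. -/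
theorem noeth_ind [IsNoetherianRing R] (hP : Ext sep P)
    (h0 : ∀ (B : Type) [CommRing B] [Algebra R B], Subsingleton B → P (aff R B))
    (hdom : ∀ (B : Type) [CommRing B] [Algebra R B] [Algebra.FiniteType R B], IsDomain B →
      (∀ g : B, g ≠ 0 → P (aff R (B ⧸ Ideal.span {g}))) → P (aff R B))
    (A : Type) [CommRing A] [Algebra R A] [Algebra.FiniteType R A] : P (aff R A) := by
  have : IsNoetherianRing A := Algebra.FiniteType.isNoetherianRing R A
  suffices h : ∀ (I : Ideal A) (f : A) (B : Type) [CommRing B] [Algebra R B]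
      [Algebra.FiniteType R B] (φ : A →ₐ[R] B), IsPart I f φ → P (aff R B) from
    h ⊥ 1 A (AlgHom.id R A) isPart_id
  intro I
  induction I using WellFoundedGT.induction with
  | ind I ih =>
  intro f B _ _ _ φ hφ
  by_cases hI : I.IsPrime
  · by_cases hf : f ∈ I
    · have h1 := hφ.unit
      rw [hφ.zero f hf, isUnit_zero_iff] at h1
      exact h0 B (subsingleton_of_zero_eq_one h1)
    · refine hdom B (hφ.isDomain hI hf) fun g hg => ?_
      obtain ⟨a, ha⟩ := hφ.exists_assoc g
      have ha0 : φ a ≠ 0 := fun h => hg (by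
        rw [h] at ha
        have : g ∈ Ideal.span {(0 : B)} := ha ▸ Ideal.mem_span_singleton_self g
        simpa using this)
      rw [ha]
      refine ih _ ?_ f _ _ (isPart_quot hφ a)
      refine lt_of_le_of_ne le_sup_left fun h => ha0 (hφ.zero a ?_)
      rw [h]
      exact Ideal.mem_sup_right (Ideal.mem_span_singleton_self a)
  · rw [Ideal.isPrime_iff, not_and_or] at hI
    rcases hI with hI | hI
    · push Not at hI
      have h1 := hφ.zero 1 (by rw [hI]; trivial)
      rw [map_one] at h1
      exact h0 B (subsingleton_of_zero_eq_one h1.symm)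
    · push Not at hI
      obtain ⟨x, y, hxy, hx, hy⟩ := hI
      have hft : Algebra.FiniteType R (Localization.Away (φ x)) :=
        Algebra.FiniteType.trans (S := B) inferInstance inferInstance
      refine hP.split B (φ x) ?_ ?_
      · refine ih _ ?_ f _ _ (isPart_quot hφ x)
        refine lt_of_le_of_ne le_sup_left fun h => hx ?_
        rw [h]
        exact Ideal.mem_sup_right (Ideal.mem_span_singleton_self x)
      · refine ih _ ?_ (f * x) _ _ (isPart_ann hxy (isPart_loc hφ x))
        refine lt_of_le_of_ne le_sup_left fun h => hy ?_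
        rw [h]
        exact Ideal.mem_sup_right (Ideal.mem_span_singleton_self y)

end Pool.Agent.U586.MU
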