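import Pool.Agent.Y116.UV.Geo

/-!
# Strata of affine schemes and properties closed under gluing a closed and an open part
-/

set_option autoImplicit false

open CategoryTheory AlgebraicGeometry Pool.Agent.Y116.UV

namespace Pool.Agent.U586.MU

variable {R : Type} [CommRing R]

/-- `B` is the ring of functions on the part of `Spec A` where the `f i` with `i ∈ σ` are invertible
and the others are zero. -/
structure IsStr {A B ι : Type} [CommRing A] [Algebra R A] [CommRing B] [Algebra R B] (f : ι → A)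
    (σ : Set ι) (φ : A →ₐ[R] B) : Prop where
  zero : ∀ i, i ∉ σ → φ (f i) = 0
  unit : ∀ i, i ∈ σ → IsUnit (φ (f i))
  lift : ∀ (C : Type) [CommRing C] [Algebra R C] (ψ : A →ₐ[R] C), (∀ i, i ∉ σ → ψ (f i) = 0) →
    (∀ i, i ∈ σ → IsUnit (ψ (f i))) → ∃ χ : B →ₐ[R] C, χ.comp φ = ψ
  uniq : ∀ (C : Type) [CommRing C] [Algebra R C] (χ χ' : B →ₐ[R] C), χ.comp φ = χ'.comp φ → χ = χ'

variable {P : Sch R → Prop}

lemma isStr_quot {A B : Type} [CommRing A] [Algebra R A] [CommRing B] [Algebra R B] {m : ℕ}
    (f : Fin (m + 1) → A) (σ : Set (Fin m)) (φ : (A ⧸ Ideal.span {f 0}) →ₐ[R] B)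
    (h : IsStr (fun i => Ideal.Quotient.mkₐ R (Ideal.span {f 0}) (f i.succ)) σ φ) :
    IsStr f (Fin.succ '' σ) (φ.comp (Ideal.Quotient.mkₐ R (Ideal.span {f 0}))) where
  zero i hi := by
    induction i using Fin.cases with
    | zero =>
      have : Ideal.Quotient.mkₐ R (Ideal.span {f 0}) (f 0) = 0 :=
        Ideal.Quotient.eq_zero_iff_mem.mpr (Ideal.mem_span_singleton_self _)
      rw [AlgHom.comp_apply, this, map_zero]
    | succ i => exact h.zero i fun h' => hi ⟨i, h', rfl⟩
  unit i hi := by
    obtain ⟨j, hj, rfl⟩ := hi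
    exact h.unit j hj
  lift C _ _ ψ h0 h1 := by
    have h00 : ψ (f 0) = 0 := h0 0 (by rintro ⟨j, _, hj⟩; exact Fin.succ_ne_zero j hj)
    let ψ' : (A ⧸ Ideal.span {f 0}) →ₐ[R] C := Ideal.Quotient.liftₐ _ ψ (by
      intro a ha
      obtain ⟨b, rfl⟩ := Ideal.mem_span_singleton'.mp ha
      rw [map_mul, h00, mul_zero])
    have hψ : ψ'.comp (Ideal.Quotient.mkₐ R (Ideal.span {f 0})) = ψ := by
      ext a; rfl
    obtain ⟨χ, hχ⟩ := h.lift C ψ' (fun i hi => h0 i.succ fun ⟨j, hj, hji⟩ => hi
      ((Fin.succ_injective _ hji) ▸ hj)) fun i hi => h1 i.succ ⟨i, hi, rfl⟩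
    exact ⟨χ, by rw [← AlgHom.comp_assoc, hχ, hψ]⟩
  uniq C _ _ χ χ' hc := by
    apply h.uniq C
    rw [← AlgHom.comp_assoc, ← AlgHom.comp_assoc] at hc
    ext a
    obtain ⟨b, rfl⟩ := Ideal.Quotient.mkₐ_surjective R _ a
    exact congrArg (fun g : A →ₐ[R] C => g b) hc

lemma isStr_loc {A B : Type} [CommRing A] [Algebra R A] [CommRing B] [Algebra R B] {m : ℕ}
    (f : Fin (m + 1) → A) (σ : Set (Fin m)) (φ : Localization.Away (f 0) →ₐ[R] B)
    (h : IsStr (fun i => IsScalarTower.toAlgHom R A (Localization.Away (f 0)) (f i.succ)) σ φ) :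
    IsStr f (insert 0 (Fin.succ '' σ))
      (φ.comp (IsScalarTower.toAlgHom R A (Localization.Away (f 0)))) where
  zero i hi := by
    induction i using Fin.cases with
    | zero => exact absurd (Set.mem_insert _ _) hi
    | succ i => exact h.zero i fun h' => hi (Or.inr ⟨i, h', rfl⟩)
  unit i hi := by
    rcases hi with rfl | ⟨j, hj, rfl⟩
    · exact (IsLocalization.Away.algebraMap_isUnit (f 0)).map φ
    · exact h.unit j hj
  lift C _ _ ψ h0 h1 := by
    have h00 : IsUnit (ψ (f 0)) := h1 0 (Set.mem_insert _ _)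
    have hu : ∀ y : Submonoid.powers (f 0), IsUnit ((ψ : A →+* C) y) := by
      rintro ⟨_, n, rfl⟩
      change IsUnit (ψ (f 0 ^ n))
      rw [map_pow]
      exact h00.pow n
    let ψ' : Localization.Away (f 0) →ₐ[R] C :=
      { (IsLocalization.lift (M := Submonoid.powers (f 0)) hu :
          Localization.Away (f 0) →+* C) with
        commutes' := by
          intro r
          change IsLocalization.lift (M := Submonoid.powers (f 0)) hu
            (algebraMap R (Localization.Away (f 0)) r) = _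
          rw [IsScalarTower.algebraMap_apply R A (Localization.Away (f 0)),
            IsLocalization.lift_eq]
          exact ψ.commutes r }
    have hψ : ψ'.comp (IsScalarTower.toAlgHom R A (Localization.Away (f 0))) = ψ := by
      ext a
      exact IsLocalization.lift_eq (M := Submonoid.powers (f 0)) hu a
    have key : ∀ a, ψ' (IsScalarTower.toAlgHom R A (Localization.Away (f 0)) a) = ψ a :=
      fun a => congrArg (fun g : A →ₐ[R] C => g a) hψ
    obtain ⟨χ, hχ⟩ := h.lift C ψ' (fun i hi => by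
        rw [key]
        exact h0 i.succ fun h' => by
          rcases h' with h' | ⟨j, hj, hji⟩
          · exact Fin.succ_ne_zero i h'
          · exact hi ((Fin.succ_injective _ hji) ▸ hj))
      (fun i hi => by
        rw [key]
        exact h1 i.succ (Or.inr ⟨i, hi, rfl⟩))
    exact ⟨χ, by rw [← AlgHom.comp_assoc, hχ, hψ]⟩
  uniq C _ _ χ χ' hc := by
    apply h.uniq C
    rw [← AlgHom.comp_assoc, ← AlgHom.comp_assoc] at hc
    apply AlgHom.coe_ringHom_injective
    apply IsLocalization.ringHom_ext (Submonoid.powers (f 0))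
    ext a
    exact congrArg (fun g : A →ₐ[R] C => g a) hc

/-- A property of affine schemes which is closed under gluing `f = 0` and `f ≠ 0` holds for `Spec A` if
it holds for the strata of a finite family of functions. -/
theorem of_strata
    (hspl : ∀ (A : Type) [CommRing A] [Algebra R A] [Algebra.FiniteType R A] (w : A),
      P (aff R (A ⧸ Ideal.span {w})) → P (aff R (Localization.Away w)) → P (aff R A)) :
    ∀ (m : ℕ) (A : Type) [CommRing A] [Algebra R A] [Algebra.FiniteType R A] (f : Fin m → A),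
      (∀ (σ : Set (Fin m)) (B : Type) [CommRing B] [Algebra R B] [Algebra.FiniteType R B]
        (φ : A →ₐ[R] B), IsStr f σ φ → P (aff R B)) → P (aff R A) := by
  intro m
  induction m with
  | zero =>
    intro A _ _ _ f h
    exact h ∅ A (AlgHom.id R A) ⟨fun i => i.elim0, fun i => i.elim0,
      fun C _ _ ψ _ _ => ⟨ψ, AlgHom.comp_id ψ⟩, fun C _ _ χ χ' hc => by
        rwa [AlgHom.comp_id, AlgHom.comp_id] at hc⟩
  | succ m ih =>
    intro A _ _ _ f h
    have : Algebra.FiniteType R (Localization.Away (f 0)) :=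
      Algebra.FiniteType.trans (S := A) inferInstance inferInstance
    refine hspl A (f 0) ?_ ?_
    · refine ih (A ⧸ Ideal.span {f 0})
        (fun i => Ideal.Quotient.mkₐ R (Ideal.span {f 0}) (f i.succ)) fun σ B _ _ _ φ hφ => ?_
      exact h _ B _ (isStr_quot f σ φ hφ)
    · refine ih (Localization.Away (f 0))
        (fun i => IsScalarTower.toAlgHom R A (Localization.Away (f 0)) (f i.succ))
        fun σ B _ _ _ φ hφ => ?_
      exact h _ B _ (isStr_loc f σ φ hφ)

/-- The same for a family indexed by a finite type. -/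
theorem of_strata'
    (hspl : ∀ (A : Type) [CommRing A] [Algebra R A] [Algebra.FiniteType R A] (w : A),
      P (aff R (A ⧸ Ideal.span {w})) → P (aff R (Localization.Away w)) → P (aff R A))
    {ι : Type} [Finite ι] (A : Type) [CommRing A] [Algebra R A] [Algebra.FiniteType R A]
    (f : ι → A) (h : ∀ (σ : Set ι) (B : Type) [CommRing B] [Algebra R B] [Algebra.FiniteType R B]
        (φ : A →ₐ[R] B), IsStr f σ φ → P (aff R B)) : P (aff R A) := by
  have := Fintype.ofFinite ι
  let e := (Fintype.equivFin ι).symm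
  refine of_strata hspl _ A (f ∘ e) fun σ B _ _ _ φ hφ => ?_
  refine h (e '' σ) B φ ⟨fun i hi => ?_, fun i hi => ?_, fun C _ _ ψ h0 h1 => ?_, hφ.uniq⟩
  · have := hφ.zero (e.symm i) fun h' => hi ⟨_, h', e.apply_symm_apply i⟩
    rwa [Function.comp_apply, e.apply_symm_apply] at this
  · obtain ⟨j, hj, rfl⟩ := hi
    exact hφ.unit j hj
  · refine hφ.lift C ψ (fun i hi => h0 _ ?_) fun i hi => h1 _ ⟨i, hi, rfl⟩
    rintro ⟨j, hj, hji⟩
    exact hi (e.injective hji ▸ hj)

end Pool.Agent.U586.MU
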