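import Pool.Agent.U586.MU.Defs
import Pool.Agent.U586.MU.Str

/-!
# The universal property of the realization spaces
-/

set_option autoImplicit false

open MvPolynomial Pool.Agent.Y116.UV

namespace Pool.Agent.U586.MU

lemma det3_eq {A E : Type} [CommRing A] (M : Fin 3 → E → A) (t : E × E × E) :
    det3 M t = M 0 t.1 * (M 1 t.2.1 * M 2 t.2.2 - M 1 t.2.2 * M 2 t.2.1) -
      M 0 t.2.1 * (M 1 t.1 * M 2 t.2.2 - M 1 t.2.2 * M 2 t.1) +
      M 0 t.2.2 * (M 1 t.1 * M 2 t.2.1 - M 1 t.2.1 * M 2 t.1) := by
  rw [det3, Matrix.det_fin_three]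
  simp
  ring

lemma det3_map {A B E F : Type} [CommRing A] [CommRing B] [FunLike F A B] [RingHomClass F A B]
    (φ : F) (M : Fin 3 → E → A) (t : E × E × E) :
    det3 (fun r e => φ (M r e)) t = φ (det3 M t) := by
  rw [det3_eq, det3_eq]
  simp only [map_add, map_sub, map_mul]

section

variable {R : Type} [CommRing R] {E : Type} [Fintype E] (π : Cfg E)

/-- the universal configuration -/
noncomputable def univM (R : Type) [CommRing R] (r : Fin 3) (e : E) : π.Ring R :=
  algebraMap _ (π.Ring R) (Ideal.Quotient.mk (Ideal.span (π.eqs R)) (genM R E r e))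

/-- the structure map -/
noncomputable def toReal (R : Type) [CommRing R] : MvPolynomial (Fin 3 × E) R →ₐ[R] π.Ring R :=
  (IsScalarTower.toAlgHom R (MvPolynomial (Fin 3 × E) R ⧸ Ideal.span (π.eqs R)) (π.Ring R)).comp
    (Ideal.Quotient.mkₐ R _)

lemma toReal_gen (r : Fin 3) (e : E) : toReal π R (genM R E r e) = univM π R r e := rfl

lemma toReal_eq {p : MvPolynomial (Fin 3 × E) R} (hp : p ∈ π.eqs R) : toReal π R p = 0 := by
  have : Ideal.Quotient.mkₐ R (Ideal.span (π.eqs R)) p = 0 :=
    Ideal.Quotient.eq_zero_iff_mem.mpr (Ideal.subset_span hp)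
  rw [toReal, AlgHom.comp_apply, this, map_zero]

lemma toReal_det (t : E × E × E) : toReal π R (det3 (genM R E) t) = det3 (univM π R) t :=
  (det3_map (toReal π R) (genM R E) t).symm

theorem isReal_univ : IsReal π (univM π R) where
  frame r s := by
    have h := toReal_eq π (R := R) (p := genM R E r (π.frame s.castSucc) - if r = s then 1 else 0)
      (Or.inl (Or.inl (Or.inl ⟨r, s, rfl⟩)))
    rw [map_sub, toReal_gen, sub_eq_zero] at h
    rw [h]
    split_ifs <;> simp
  frame' r := by
    have h := toReal_eq π (R := R) (p := genM R E r (π.frame (Fin.last 3)) - 1)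
      (Or.inl (Or.inl (Or.inr ⟨r, rfl⟩)))
    rw [map_sub, toReal_gen, sub_eq_zero, map_one] at h
    exact h
  norm e := by
    have h := toReal_eq π (R := R) (p := genM R E (π.norm e) e - 1) (Or.inl (Or.inr ⟨e, rfl⟩))
    rw [map_sub, toReal_gen, sub_eq_zero, map_one] at h
    exact h
  dep t ht := by
    rw [← toReal_det]
    exact toReal_eq π (Or.inr ⟨t, ht, rfl⟩)
  indep t ht := by
    classical
    rw [← toReal_det]
    have h : IsUnit (toReal π R (π.disc R)) :=
      IsLocalization.Away.algebraMap_isUnit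
        (Ideal.Quotient.mk (Ideal.span (π.eqs R)) (π.disc R))
    have h2 : det3 (genM R E) t ∣ π.disc R := by
      rw [Cfg.disc]
      refine Finset.dvd_prod_of_mem (fun t => det3 (genM R E) t) ?_
      exact Finset.mem_filter.mpr ⟨Finset.mem_univ t, ht⟩
    exact isUnit_of_dvd_unit (map_dvd (toReal π R) h2) h

variable {π}

/-- Every configuration of type `π` over an `R`-algebra comes from the universal one. -/
theorem exists_lift {C : Type} [CommRing C] [Algebra R C] {M : Fin 3 → E → C} (hM : IsReal π M) :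
    ∃ g : π.Ring R →ₐ[R] C, ∀ r e, g (univM π R r e) = M r e := by
  classical
  let g0 : MvPolynomial (Fin 3 × E) R →ₐ[R] C := aeval fun p => M p.1 p.2
  have h0 : ∀ r e, g0 (genM R E r e) = M r e := fun r e => aeval_X _ _
  have hdet : ∀ t, g0 (det3 (genM R E) t) = det3 M t := fun t => by
    rw [← det3_map]
    congr 1
    funext r e
    exact h0 r e
  have hI : ∀ p ∈ Ideal.span (π.eqs R), g0 p = 0 := by
    intro p hp
    have : Ideal.span (π.eqs R) ≤ RingHom.ker g0 := by
      rw [Ideal.span_le]
      rintro p (((⟨r, s, rfl⟩ | ⟨r, rfl⟩) | ⟨e, rfl⟩) | ⟨t, ht, rfl⟩)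
      · change g0 _ = 0
        rw [map_sub, h0, hM.frame, sub_eq_zero]
        split_ifs <;> simp
      · change g0 _ = 0
        rw [map_sub, h0, hM.frame', map_one, sub_self]
      · change g0 _ = 0
        rw [map_sub, h0, hM.norm, map_one, sub_self]
      · change g0 _ = 0
        rw [hdet, hM.dep t ht]
    exact this hp
  let g1 : (MvPolynomial (Fin 3 × E) R ⧸ Ideal.span (π.eqs R)) →ₐ[R] C :=
    Ideal.Quotient.liftₐ _ g0 hI
  have hd : IsUnit (g1 (Ideal.Quotient.mk _ (π.disc R))) := by
    change IsUnit (g0 (π.disc R))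
    rw [Cfg.disc, map_prod, IsUnit.prod_iff]
    intro t ht
    rw [hdet]
    exact hM.indep t (Finset.mem_filter.mp ht).2
  have hu : ∀ y : Submonoid.powers (Ideal.Quotient.mk (Ideal.span (π.eqs R)) (π.disc R)),
      IsUnit ((g1 : (MvPolynomial (Fin 3 × E) R ⧸ Ideal.span (π.eqs R)) →+* C) y) := by
    rintro ⟨_, n, rfl⟩
    change IsUnit (g1 (_ ^ n))
    rw [map_pow]
    exact hd.pow n
  refine ⟨{ (IsLocalization.lift (M := Submonoid.powers _) hu : π.Ring R →+* C) with
        commutes' := by
          intro r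
          change IsLocalization.lift (M := Submonoid.powers _) hu (algebraMap R (π.Ring R) r) = _
          rw [IsScalarTower.algebraMap_apply R
            (MvPolynomial (Fin 3 × E) R ⧸ Ideal.span (π.eqs R)) (π.Ring R),
            IsLocalization.lift_eq]
          exact g1.commutes r }, fun r e => ?_⟩
  have h := IsLocalization.lift_eq (M := Submonoid.powers _) (S := π.Ring R) hu
    (Ideal.Quotient.mk (Ideal.span (π.eqs R)) (genM R E r e))
  exact h.trans (h0 r e)

theorem real_ext {C : Type} [CommRing C] [Algebra R C] {g g' : π.Ring R →ₐ[R] C}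
    (h : ∀ r e, g (univM π R r e) = g' (univM π R r e)) : g = g' := by
  apply AlgHom.coe_ringHom_injective
  apply IsLocalization.ringHom_ext
    (Submonoid.powers (Ideal.Quotient.mk (Ideal.span (π.eqs R)) (π.disc R)))
  have h1 : g.comp (toReal π R) = g'.comp (toReal π R) := by
    apply MvPolynomial.algHom_ext
    rintro ⟨r, e⟩
    exact h r e
  refine RingHom.ext fun p => ?_
  obtain ⟨q, rfl⟩ := Ideal.Quotient.mk_surjective p
  exact congrArg (fun f : MvPolynomial (Fin 3 × E) R →ₐ[R] C => f q) h1

instance : Algebra.FiniteType R (π.Ring R) :=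
  Algebra.FiniteType.trans (S := MvPolynomial (Fin 3 × E) R ⧸ Ideal.span (π.eqs R))
    inferInstance inferInstance

end

end Pool.Agent.U586.MU
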