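import Pool.Agent.U586.MU.UMain

/-!
# Relative universality
-/

set_option autoImplicit false

open CategoryTheory AlgebraicGeometry MvPolynomial Pool.Agent.Y116.UV

namespace Pool.Agent.U586.MU

variable {R : Type} [CommRing R] {sep : Prop} {P : Sch R → Prop}

lemma ext_rel (hP : Ext sep P) {K : Sch R → Prop} (hK : Hered sep K) :
    Ext sep fun X : Sch R => K X → P X where
  iso := fun {X Y} hX e h hY => hP.iso hX e
    (h (hK.iso (X := Y) (Y := X) (ft_iso hX e.some) ⟨e.some.symm⟩ hY))
  total := fun i j hX ht hZ hU hKX =>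
    hP.total i j hX ht (hZ (hK.sub i j hX ht hKX).1) (hU (hK.sub i j hX ht hKX).2)

theorem unit_universal_in (hR : Presents ({0, 1} : Set R)) (hP : Ext sep P) {K : Sch R → Prop}
    (hK : Hered sep K)
    (h : ∀ (I : Type) [Fintype I] (S : Set (SBin (I ⊕ I))), K (uspace R S) → P (uspace R S))
    (X : Sch R) (hX : FT sep X) : K X → P X :=
  unit_universal hR (ext_rel hP hK) (fun I _ S => h I S) X hX

/-- `P` is true for all schemes of finite type over `R`, separated if `sep`, which are in `K`. -/
def ForSchemes (sep : Prop) (K P : Sch R → Prop) : Prop := ∀ X : Sch R, FT sep X → K X → P X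

/-- `P` is true for the realization spaces which are in `K`. -/
def ForReal (K P : Sch R → Prop) : Prop :=
  ∀ (E : Type) [Fintype E] (π : Cfg E), K (π.space R) → P (π.space R)

/-- `P` is true for the schemes of solutions of unit equations which are in `K`. -/
def ForUnit (K P : Sch R → Prop) : Prop :=
  ∀ (I : Type) [Fintype I] (S : Set (SBin (I ⊕ I))), K (uspace R S) → P (uspace R S)

/-- The three assertions are equivalent. -/
theorem three (hR : Presents ({0, 1} : Set R)) (hP : Ext sep P) {K : Sch R → Prop}
    (hK : Hered sep K) :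
    (ForSchemes sep K P ↔ ForReal K P) ∧ (ForSchemes sep K P ↔ ForUnit K P) :=
  ⟨⟨fun h E _ π => h _ (ft_aff sep), fun h X hX => universal_in hR hP hK (fun E _ π => h E π) X hX⟩,
    ⟨fun h I _ S => h _ (ft_aff sep), fun h X hX => unit_universal_in hR hP hK (fun I _ S => h I S) X hX⟩⟩

end Pool.Agent.U586.MU
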