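import Pool.Agent.U586.MU.Grid
import Pool.Agent.Y116.UV.Main

/-!
# Algebras presented by an addition table and a multiplication table; strata of the grid
-/

set_option autoImplicit false

open MvPolynomial Pool.Agent.Y116.UV

namespace Pool.Agent.U586.MU

variable {R : Type} [CommRing R]

/-- The algebra `A` is generated by the elements `t i`, with the relations `t z = 0`, `t o = 1` and all
relations `t k = t i + t j`, `t k = t i * t j` which hold in `A`. -/
structure IsTab (R : Type) [CommRing R] {A κ : Type} [CommRing A] [Algebra R A] (t : κ → A)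
    (z o : κ) : Prop where
  zero : t z = 0
  one : t o = 1
  lift : ∀ (C : Type) [CommRing C] [Algebra R C] (t' : κ → C), t' z = 0 → t' o = 1 →
    (∀ i j k, t k = t i + t j → t' k = t' i + t' j) →
    (∀ i j k, t k = t i * t j → t' k = t' i * t' j) → ∃ ψ : A →ₐ[R] C, ∀ i, ψ (t i) = t' i
  uniq : ∀ (C : Type) [CommRing C] [Algebra R C] (ψ ψ' : A →ₐ[R] C),
    (∀ i, ψ (t i) = ψ' (t i)) → ψ = ψ'

/-- The strata of the grid are realization spaces. -/
theorem stratum_iso {A B κ : Type} [CommRing A] [Algebra R A] [CommRing B] [Algebra R B]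
    [Fintype κ] {t : κ → A} {z o : κ} (ht : IsTab R t z o) {σ : Set (GE κ × GE κ × GE κ)}
    (hσ : ∀ x ∈ σ, det3 (gridM t) x ≠ 0) {φ : A →ₐ[R] B}
    (h : IsStr (det3 (gridM t)) σ φ) : Nonempty ((gridCfg z o σᶜ).Ring R ≃ₐ[R] B) := by
  have hm : ∀ x, det3 (gridM t) x = 0 → x ∈ σᶜ := fun x hx hxσ => hσ x hxσ hx
  have hB : IsReal (gridCfg z o σᶜ) (gridM fun i => φ (t i)) := by
    refine grid_real _ (by rw [ht.zero, map_zero]) (by rw [ht.one, map_one]) ?_ ?_
    · intro x hx
      have := h.zero x hx
      rw [← det3_map] at this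
      rw [← this]
      congr 1
      funext r e
      exact (gridM_map t φ r e).symm
    · intro x hx
      have := h.unit x (by simpa using hx)
      rw [← det3_map] at this
      convert this using 2
      funext r e
      exact (gridM_map t φ r e).symm
  obtain ⟨g, hg⟩ := exists_lift (R := R) hB
  have hU := isReal_univ (gridCfg z o σᶜ) (R := R)
  obtain ⟨t', h0, h1, hM⟩ := grid_of_real hU (fun i j => hm _ (det_b1 t ht.zero i j))
    (fun i j => hm _ (det_b2 t ht.zero i j)) (fun i => hm _ (det_b3 t z i))
    (fun i => hm _ (det_b4 t ht.zero ht.one i)) (fun i => hm _ (det_b5 t ht.zero ht.one i))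
  obtain ⟨ψ, hψ⟩ := ht.lift ((gridCfg z o σᶜ).Ring R) t' h0 h1 (by
      intro i j k hk
      have h2 := hU.dep (gp i j, gp k z, gm o)
        (hm _ (by rw [det_add t ht.zero ht.one, hk, sub_self]))
      rw [hM, det_add t' h0 h1] at h2
      exact (sub_eq_zero.mp h2).symm) (by
      intro i j k hk
      have h2 := hU.dep (gp i z, gm j, gp z k)
        (hm _ (by rw [det_mul t ht.zero, hk, sub_self]))
      rw [hM, det_mul t' h0] at h2
      exact sub_eq_zero.mp h2)
  have hψM : ∀ r e, ψ (gridM t r e) = univM (gridCfg z o σᶜ) R r e := fun r e => by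
    rw [gridM_map, hM]
    congr 1
    funext i
    exact hψ i
  have hψd : ∀ x, ψ (det3 (gridM t) x) = det3 (univM (gridCfg z o σᶜ) R) x := fun x => by
    rw [← det3_map]
    congr 1
    funext r e
    exact hψM r e
  obtain ⟨χ, hχ⟩ := h.lift ((gridCfg z o σᶜ).Ring R) ψ
    (fun x hx => by rw [hψd]; exact hU.dep x hx)
    (fun x hx => by rw [hψd]; exact hU.indep x (by simpa [gridCfg] using hx))
  have hχ' : ∀ a, χ (φ a) = ψ a := fun a => congrArg (fun f : A →ₐ[R] _ => f a) hχ
  refine ⟨AlgEquiv.ofAlgHom g χ ?_ ?_⟩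
  · apply h.uniq B
    apply ht.uniq B
    intro i
    change g (χ (φ (t i))) = φ (t i)
    rw [hχ', hψ]
    have h2 : t' i = univM (gridCfg z o σᶜ) R 0 (gp i z) := by
      rw [hM]
      rfl
    rw [h2, hg]
    rfl
  · apply real_ext
    intro r e
    change χ (g (univM _ R r e)) = univM _ R r e
    rw [hg, ← hψM, ← gridM_map t φ, hχ']

/-! ### Existence of tables -/

/-- the monomials of degree at most `D` -/
def monS (n D : ℕ) : Set (Fin n →₀ ℕ) := {m | m.degree ≤ D}

lemma monS_finite (n D : ℕ) : (monS n D).Finite := by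
  refine (Set.finite_Iic (Finsupp.equivFunOnFinite.symm fun _ : Fin n => D)).subset ?_
  intro m hm i
  exact (Finsupp.le_degree i m).trans hm

/-- the sum of the monomials in a finite set -/
noncomputable def msum (R : Type) [CommRing R] {n : ℕ} (s : Finset (Fin n →₀ ℕ)) :
    MvPolynomial (Fin n) R := ∑ m ∈ s, monomial m 1

theorem exists_tab (hR : Presents ({0, 1} : Set R)) (A : Type) [CommRing A] [Algebra R A]
    [Algebra.FiniteType R A] : ∃ (T : Finset A) (z o : T), IsTab R (Subtype.val : T → A) z o := by
  classical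
  obtain ⟨n, π, G, hs, hK, hc⟩ := hR A
  obtain ⟨D, hD1, hD⟩ : ∃ D : ℕ, 1 ≤ D ∧ ∀ g ∈ G, ∀ m ∈ g.support, m.degree ≤ D := by
    refine ⟨1 + ∑ g ∈ G, ∑ m ∈ g.support, m.degree, by omega, fun g hg m hm => ?_⟩
    have h1 : m.degree ≤ ∑ m ∈ g.support, m.degree :=
      Finset.single_le_sum (f := fun m : Fin n →₀ ℕ => m.degree) (fun _ _ => Nat.zero_le _) hm
    have h2 : ∑ m ∈ g.support, m.degree ≤ ∑ g ∈ G, ∑ m ∈ g.support, m.degree :=
      Finset.single_le_sum (f := fun g : MvPolynomial (Fin n) R => ∑ m ∈ g.support, m.degree)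
        (fun _ _ => Nat.zero_le _) hg
    omega
  let W : Finset (Fin n →₀ ℕ) := (monS_finite n D).toFinset
  have hW : ∀ m : Fin n →₀ ℕ, m ∈ W ↔ m.degree ≤ D := fun m => by
    rw [Set.Finite.mem_toFinset]; rfl
  let T : Finset A := W.powerset.image fun s => π (msum R s)
  have hT : ∀ s ⊆ W, π (msum R s) ∈ T := fun s hs =>
    Finset.mem_image.mpr ⟨s, Finset.mem_powerset.mpr hs, rfl⟩
  let e : {s // s ⊆ W} → T := fun s => ⟨π (msum R s.1), hT s.1 s.2⟩
  have h0W : (0 : Fin n →₀ ℕ) ∈ W := (hW 0).mpr (by simp)
  have hsing : ∀ m : Fin n →₀ ℕ, msum R {m} = monomial m 1 := fun m => by simp [msum]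
  have hgen : ∀ g ∈ G, g = msum R g.support := by
    intro g hg
    conv_lhs => rw [g.as_sum]
    refine Finset.sum_congr rfl fun m hm => ?_
    rcases hc g hg m with h | h
    · exact absurd h (mem_support_iff.mp hm)
    · rw [show coeff m g = 1 from h]
  refine ⟨T, e ⟨∅, by simp⟩, e ⟨{0}, by simpa using h0W⟩, ?_, ?_, ?_, ?_⟩
  · change π (msum R ∅) = 0
    simp [msum]
  · change π (msum R {0}) = 1
    rw [hsing, ← C_apply, map_one, map_one]
  · intro C _ _ t' h0 h1 ha hm
    let xi : Fin n → (Fin n →₀ ℕ) := fun i => Finsupp.single i 1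
    have hxi : ∀ i, {xi i} ⊆ W := fun i => by
      rw [Finset.singleton_subset_iff, hW]
      simpa [xi] using hD1
    let ψ0 : MvPolynomial (Fin n) R →ₐ[R] C := aeval fun i => t' (e ⟨{xi i}, hxi i⟩)
    -- monomials
    have hmon : ∀ (d : ℕ) (m : Fin n →₀ ℕ) (hm' : {m} ⊆ W), m.degree = d →
        ψ0 (monomial m 1) = t' (e ⟨{m}, hm'⟩) := by
      intro d
      induction d with
      | zero =>
        intro m hm' hd
        have : m = 0 := by simpa [Finsupp.degree_eq_zero_iff] using hd
        subst this
        rw [← C_apply, map_one, map_one]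
        exact h1.symm
      | succ d ih =>
        intro m hm' hd
        obtain ⟨i, hi⟩ : ∃ i, m i ≠ 0 := by
          by_contra hne
          push Not at hne
          have : m = 0 := Finsupp.ext hne
          subst this
          simp at hd
        have hle : xi i ≤ m := by
          rw [Finsupp.single_le_iff]
          omega
        have hsplit : xi i + (m - xi i) = m := by
          rw [add_comm]
          exact tsub_add_cancel_of_le hle
        have hdeg : (m - xi i).degree = d := by
          have h9 := congrArg Finsupp.degree hsplit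
          rw [map_add] at h9
          have h10 : Finsupp.degree (xi i) = 1 := Finsupp.degree_single _ _
          omega
        have hm2 : {m - xi i} ⊆ W := by
          rw [Finset.singleton_subset_iff, hW] at hm' ⊢
          exact hdeg.le.trans (by omega)
        have h3 := hm (e ⟨{xi i}, hxi i⟩) (e ⟨{m - xi i}, hm2⟩) (e ⟨{m}, hm'⟩) (by
          change π (msum R {m}) = π (msum R {xi i}) * π (msum R {m - xi i})
          rw [hsing, hsing, hsing, ← map_mul, monomial_mul, hsplit, one_mul])
        rw [h3, ← ih _ hm2 hdeg]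
        have h4 : monomial m (1 : R) = monomial (xi i) 1 * monomial (m - xi i) 1 := by
          rw [monomial_mul, hsplit, one_mul]
        rw [h4, map_mul]
        congr 1
        change ψ0 (X i) = _
        exact aeval_X _ _
    have hsum : ∀ (s : Finset (Fin n →₀ ℕ)) (hs' : s ⊆ W), ψ0 (msum R s) = t' (e ⟨s, hs'⟩) := by
      intro s
      induction s using Finset.induction_on with
      | empty =>
        intro _
        simp only [msum, Finset.sum_empty, map_zero]
        exact h0.symm
      | insert m s hms ih =>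
        intro hs'
        have h5 : s ⊆ W := (Finset.subset_insert _ _).trans hs'
        have h6 : {m} ⊆ W := by
          rw [Finset.singleton_subset_iff]
          exact hs' (Finset.mem_insert_self _ _)
        have h7 : msum R (insert m s) = msum R {m} + msum R s := by
          rw [msum, Finset.sum_insert hms, hsing, msum]
        have h3 := ha (e ⟨{m}, h6⟩) (e ⟨s, h5⟩) (e ⟨insert m s, hs'⟩) (by
          change π (msum R (insert m s)) = π (msum R {m}) + π (msum R s)
          rw [h7, map_add])
        rw [h3, h7, map_add, ih h5, hsing, hmon _ m h6 rfl]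
    have hker : RingHom.ker π ≤ RingHom.ker ψ0 := by
      rw [hK, Ideal.span_le]
      intro g hg
      change ψ0 g = 0
      have hg' : g.support ⊆ W := fun m hm => (hW m).mpr (hD g hg m hm)
      rw [hgen g hg, hsum g.support hg']
      have h8 : e ⟨g.support, hg'⟩ = e ⟨∅, by simp⟩ := by
        apply Subtype.ext
        change π (msum R g.support) = π (msum R ∅)
        rw [← hgen g hg]
        have : g ∈ RingHom.ker π := by
          rw [hK]
          exact Ideal.subset_span hg
        rw [RingHom.mem_ker] at this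
        rw [this]
        simp [msum]
      rw [h8, h0]
    let ψ : A →ₐ[R] C := AlgHom.liftOfSurjective π hs ψ0 (by
      intro x hx
      exact hker hx)
    have hψ : ∀ p, ψ (π p) = ψ0 p := fun p => by
      exact AlgHom.liftOfSurjective_apply π hs ψ0 _ p
    refine ⟨ψ, fun i => ?_⟩
    obtain ⟨a, ha'⟩ := i
    obtain ⟨s, hs', rfl⟩ := Finset.mem_image.mp ha'
    rw [Finset.mem_powerset] at hs'
    change ψ (π (msum R s)) = t' (e ⟨s, hs'⟩)
    rw [hψ, hsum s hs']
  · intro C _ _ ψ ψ' h
    have h2 : ψ.comp π = ψ'.comp π := by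
      apply MvPolynomial.algHom_ext
      intro i
      have hxi : {(Finsupp.single i 1 : Fin n →₀ ℕ)} ⊆ W := by
        rw [Finset.singleton_subset_iff, hW]
        simpa using hD1
      have := h (e ⟨{Finsupp.single i 1}, hxi⟩)
      change ψ (π (msum R {Finsupp.single i 1})) = ψ' (π (msum R {Finsupp.single i 1})) at this
      rw [hsing] at this
      exact this
    ext a
    obtain ⟨p, rfl⟩ := hs a
    exact congrArg (fun f : MvPolynomial (Fin n) R →ₐ[R] C => f p) h2

end Pool.Agent.U586.MU
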