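import Pool.Agent.Y116.UV.Defs

/-!
# Schemes of solutions of unit equations
-/

set_option autoImplicit false

open MvPolynomial Pool.Agent.Y116.UV

namespace Pool.Agent.U586.MU

/-- A signed binomial equation `u ^ p = ± u ^ q` in the variables `u v`, `v ∈ V`. -/
abbrev SBin (V : Type) : Type := (V →₀ ℕ) × (V →₀ ℕ) × ℤˣ

/-- The value of the monomial with exponents `p`. -/
def mon {C V : Type} [CommRing C] (s : V → C) (p : V →₀ ℕ) : C := p.prod fun v n => s v ^ n

/-- `s` consists of solutions `(x i, y i)`, `i ∈ I`, of the unit equation: `x i + y i = 1` and all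
`x i`, `y i` are invertible; and these units satisfy the signed binomial equations in `S`. -/
structure IsSol {C I : Type} [CommRing C] (S : Set (SBin (I ⊕ I))) (s : I ⊕ I → C) : Prop where
  add : ∀ i, s (Sum.inl i) + s (Sum.inr i) = 1
  unit : ∀ v, IsUnit (s v)
  rel : ∀ e ∈ S, mon s e.1 = ((e.2.2 : ℤ) : C) * mon s e.2.1

section

variable (R : Type) [CommRing R] {I : Type}

/-- The equations. -/
def ueqs (S : Set (SBin (I ⊕ I))) : Set (MvPolynomial (I ⊕ I) R) :=
  {p | ∃ i, p = X (Sum.inl i) + X (Sum.inr i) - 1} ∪
    {p | ∃ e ∈ S, p = monomial e.1 1 - C ((e.2.2 : ℤ) : R) * monomial e.2.1 1}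

/-- The ring of functions on the scheme of solutions. -/
abbrev URing [Fintype I] (S : Set (SBin (I ⊕ I))) : Type :=
  Localization.Away (Ideal.Quotient.mk (Ideal.span (ueqs R S)) (∏ v : I ⊕ I, X v))

/-- The scheme of the families of solutions of the unit equation which satisfy the signed binomial
equations in `S`: a closed subscheme of the product of copies of the projective line without the points
`0, 1, ∞`, its intersection with a union of translates of a subtorus of the torus with the coordinates
`x i`, `y i = 1 - x i`. -/
noncomputable def uspace [Fintype I] (S : Set (SBin (I ⊕ I))) : Sch R := aff R (URing R S)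

end

end Pool.Agent.U586.MU
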