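import Pool.Agent.U586.MU.Unit

/-!
# The strata of affine schemes are schemes of solutions of unit equations
-/

set_option autoImplicit false

open CategoryTheory AlgebraicGeometry MvPolynomial Pool.Agent.Y116.UV

namespace Pool.Agent.U586.MU

variable {R : Type} [CommRing R]

lemma mon_isUnit {C V : Type} [CommRing C] {s : V → C} (h : ∀ v, IsUnit (s v)) (p : V →₀ ℕ) :
    IsUnit (mon s p) := by
  rw [mon, Finsupp.prod, IsUnit.prod_iff]
  exact fun v _ => (h v).pow _

/-- the family `t i`, `t i - 1` -/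
def tf {A κ : Type} [CommRing A] (t : κ → A) : κ ⊕ κ → A := Sum.elim t fun i => t i - 1

section

variable {B κ : Type} [CommRing B] (b : κ → B)

/-- the indices of the unknown solutions -/
abbrev UI : Type := {i : κ // b i ≠ 0 ∧ b i ≠ 1} ⊕
  {x : κ × κ × κ // b x.1 ≠ 0 ∧ b x.2.1 ≠ 0 ∧ b x.2.2 ≠ 0 ∧ b x.2.2 = b x.1 + b x.2.1}

open Classical in
/-- the monomial for `b i` -/
noncomputable def um (i : κ) : (UI b ⊕ UI b) →₀ ℕ :=
  if h : b i ≠ 0 ∧ b i ≠ 1 then Finsupp.single (Sum.inl (Sum.inl ⟨i, h⟩)) 1 else 0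

/-- the relations -/
def urel : Set (SBin (UI b ⊕ UI b)) :=
  {e | ∃ (i j : κ) (ε : ℤˣ), b i ≠ 0 ∧ b j ≠ 0 ∧ b i = ((ε : ℤ) : B) * b j ∧
      e = (um b i, um b j, ε)} ∪
  {e | ∃ i j k : κ, b i ≠ 0 ∧ b j ≠ 0 ∧ b k ≠ 0 ∧ b k = b i * b j ∧
      e = (um b k, um b i + um b j, 1)} ∪
  {e | ∃ x, e = (Finsupp.single (Sum.inl (Sum.inr x)) 1 + um b x.1.2.2, um b x.1.1, 1)} ∪
  {e | ∃ x, e = (Finsupp.single (Sum.inr (Sum.inr x)) 1 + um b x.1.2.2, um b x.1.2.1, 1)}

/-- the solution in `B` -/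
noncomputable def us : UI b ⊕ UI b → B
  | Sum.inl (Sum.inl i) => b i.1
  | Sum.inr (Sum.inl i) => 1 - b i.1
  | Sum.inl (Sum.inr x) => b x.1.1 * Ring.inverse (b x.1.2.2)
  | Sum.inr (Sum.inr x) => b x.1.2.1 * Ring.inverse (b x.1.2.2)

open Classical in
lemma mon_um {C : Type} [CommRing C] (s : UI b ⊕ UI b → C) (i : κ) :
    mon s (um b i) = if h : b i ≠ 0 ∧ b i ≠ 1 then s (Sum.inl (Sum.inl ⟨i, h⟩)) else 1 := by
  classical
  rw [um]
  split_ifs
  · exact mon_single _ _
  · exact mon_zero _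

lemma mon_us {i : κ} (hi : b i ≠ 0) : mon (us b) (um b i) = b i := by
  classical
  rw [mon_um]
  split_ifs with h
  · rfl
  · push Not at h
    exact (h hi).symm

variable {b} (h0 : ∀ i, b i ≠ 0 → IsUnit (b i)) (h1 : ∀ i, b i ≠ 1 → IsUnit (1 - b i))

include h0 h1

theorem isSol_us : IsSol (urel b) (us b) where
  add i := by
    rcases i with i | x
    · change b i.1 + (1 - b i.1) = 1
      ring
    · change b x.1.1 * Ring.inverse (b x.1.2.2) + b x.1.2.1 * Ring.inverse (b x.1.2.2) = 1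
      rw [← add_mul, ← x.2.2.2.2]
      exact Ring.mul_inverse_cancel _ (h0 _ x.2.2.2.1)
  unit v := by
    rcases v with (i | x) | (i | x)
    · exact h0 _ i.2.1
    · exact (h0 _ x.2.1).mul (h0 _ x.2.2.2.1).ringInverse
    · exact h1 _ i.2.2
    · exact (h0 _ x.2.2.1).mul (h0 _ x.2.2.2.1).ringInverse
  rel e he := by
    rcases he with ((⟨i, j, ε, hi, hj, hij, rfl⟩ | ⟨i, j, k, hi, hj, hk, hijk, rfl⟩) |
      ⟨x, rfl⟩) | ⟨x, rfl⟩
    · change mon _ (um b i) = ((ε : ℤ) : B) * mon _ (um b j)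
      rw [mon_us b hi, mon_us b hj, hij]
    · change mon _ (um b k) = (((1 : ℤˣ) : ℤ) : B) * mon _ (um b i + um b j)
      rw [mon_add, mon_us b hi, mon_us b hj, mon_us b hk, hijk]
      simp
    · change mon _ (Finsupp.single (Sum.inl (Sum.inr x)) 1 + um b x.1.2.2) =
        (((1 : ℤˣ) : ℤ) : B) * mon _ (um b x.1.1)
      rw [mon_add, mon_single, mon_us b x.2.2.2.1, mon_us b x.2.1]
      change b x.1.1 * Ring.inverse (b x.1.2.2) * b x.1.2.2 = _
      rw [mul_assoc, Ring.inverse_mul_cancel _ (h0 _ x.2.2.2.1)]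
      simp
    · change mon _ (Finsupp.single (Sum.inr (Sum.inr x)) 1 + um b x.1.2.2) =
        (((1 : ℤˣ) : ℤ) : B) * mon _ (um b x.1.2.1)
      rw [mon_add, mon_single, mon_us b x.2.2.2.1, mon_us b x.2.2.1]
      change b x.1.2.1 * Ring.inverse (b x.1.2.2) * b x.1.2.2 = _
      rw [mul_assoc, Ring.inverse_mul_cancel _ (h0 _ x.2.2.2.1)]
      simp

end

theorem ustratum_iso {A B κ : Type} [CommRing A] [Algebra R A] [CommRing B] [Algebra R B]
    [Nontrivial B] {t : κ → A} {z o : κ} (ht : IsTab R t z o) {σ : Set (κ ⊕ κ)}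
    {φ : A →ₐ[R] B} (h : IsStr (tf t) σ φ) (b : κ → B) (hb : b = fun i => φ (t i))
    [Fintype (UI b)] : Nonempty (URing R (urel b) ≃ₐ[R] B) := by
  classical
  have h0 : ∀ i, b i ≠ 0 → IsUnit (b i) := fun i hi => by
    by_cases hσ : Sum.inl i ∈ σ
    · rw [hb]
      exact h.unit _ hσ
    · rw [hb] at hi
      exact absurd (h.zero _ hσ) hi
  have h1 : ∀ i, b i ≠ 1 → IsUnit (1 - b i) := fun i hi => by
    by_cases hσ : Sum.inr i ∈ σ
    · have := (h.unit _ hσ).neg
      simp only [tf, Sum.elim_inr, map_sub, map_one, neg_sub] at this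
      rw [hb]
      exact this
    · have := h.zero _ hσ
      simp only [tf, Sum.elim_inr, map_sub, map_one] at this
      rw [hb] at hi
      exact absurd (sub_eq_zero.mp this) hi
  obtain ⟨g, hg⟩ := sol_lift (R := R) (isSol_us h0 h1)
  let U := URing R (urel b)
  let u := univS (urel b) R
  have hu : IsSol (urel b) u := isSol_univ _
  let t' : κ → U := fun i => if b i = 0 then 0 else mon u (um b i)
  have t0 : ∀ i, b i = 0 → t' i = 0 := fun i hi => if_pos hi
  have tn : ∀ i, b i ≠ 0 → t' i = mon u (um b i) := fun i hi => if_neg hi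
  have tU : ∀ i, b i ≠ 0 → IsUnit (t' i) := fun i hi => by
    rw [tn i hi]
    exact mon_isUnit hu.unit _
  have t1 : ∀ i, b i = 1 → t' i = 1 := fun i hi => by
    rw [tn i (by rw [hi]; exact one_ne_zero), mon_um, dif_neg]
    exact fun h => h.2 hi
  have tg : ∀ i (hi : b i ≠ 0 ∧ b i ≠ 1), t' i = u (Sum.inl (Sum.inl ⟨i, hi⟩)) := fun i hi => by
    rw [tn i hi.1, mon_um, dif_pos hi]
  have rs : ∀ i j (ε : ℤˣ), b i ≠ 0 → b j ≠ 0 → b i = ((ε : ℤ) : B) * b j →
      t' i = ((ε : ℤ) : U) * t' j := fun i j ε hi hj hij => by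
    rw [tn i hi, tn j hj]
    exact hu.rel _ (Or.inl (Or.inl (Or.inl ⟨i, j, ε, hi, hj, hij, rfl⟩)))
  have rx : ∀ x : {x : κ × κ × κ // b x.1 ≠ 0 ∧ b x.2.1 ≠ 0 ∧ b x.2.2 ≠ 0 ∧
      b x.2.2 = b x.1 + b x.2.1}, u (Sum.inl (Sum.inr x)) * t' x.1.2.2 = t' x.1.1 := fun x => by
    have := hu.rel _ (Or.inl (Or.inr ⟨x, rfl⟩))
    dsimp only at this
    rw [mon_add, mon_single, ← tn _ x.2.2.2.1, ← tn _ x.2.1] at this
    simpa using this
  have ry : ∀ x : {x : κ × κ × κ // b x.1 ≠ 0 ∧ b x.2.1 ≠ 0 ∧ b x.2.2 ≠ 0 ∧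
      b x.2.2 = b x.1 + b x.2.1}, u (Sum.inr (Sum.inr x)) * t' x.1.2.2 = t' x.1.2.1 := fun x => by
    have := hu.rel _ (Or.inr ⟨x, rfl⟩)
    dsimp only at this
    rw [mon_add, mon_single, ← tn _ x.2.2.2.1, ← tn _ x.2.2.1] at this
    simpa using this
  obtain ⟨ψ, hψ⟩ := ht.lift U t' (t0 z (by rw [hb]; simp [ht.zero]))
    (t1 o (by rw [hb]; simp [ht.one])) (by
      intro i j k hk
      have hk' : b k = b i + b j := by rw [hb]; simp [hk]
      by_cases ki : b i = 0
      · have hjk : b k = b j := by rw [hk', ki, zero_add]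
        rw [t0 i ki, zero_add]
        by_cases kj : b j = 0
        · rw [t0 j kj, t0 k (hjk.trans kj)]
        · have := rs k j 1 (by rwa [hjk]) kj (by simp [hjk])
          simpa using this
      by_cases kj : b j = 0
      · have hjk : b k = b i := by rw [hk', kj, add_zero]
        rw [t0 j kj, add_zero]
        have := rs k i 1 (by rwa [hjk]) ki (by simp [hjk])
        simpa using this
      by_cases kk : b k = 0
      · have := rs i j (-1) ki kj (by
          rw [kk] at hk'
          simp only [Units.val_neg, Units.val_one, Int.cast_neg, Int.cast_one, neg_mul, one_mul]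
          exact eq_neg_of_add_eq_zero_left hk'.symm)
        rw [t0 k kk, this]
        simp only [Units.val_neg, Units.val_one, Int.cast_neg, Int.cast_one]
        ring
      · rw [← rx ⟨(i, j, k), ki, kj, kk, hk'⟩, ← ry ⟨(i, j, k), ki, kj, kk, hk'⟩, ← add_mul,
          hu.add, one_mul]) (by
      intro i j k hk
      have hk' : b k = b i * b j := by rw [hb]; simp [hk]
      by_cases ki : b i = 0
      · rw [t0 i ki, zero_mul, t0 k (by rw [hk', ki, zero_mul])]
      by_cases kj : b j = 0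
      · rw [t0 j kj, mul_zero, t0 k (by rw [hk', kj, mul_zero])]
      have kk : b k ≠ 0 := by
        rw [hk']
        exact ((h0 i ki).mul (h0 j kj)).ne_zero
      have := hu.rel _ (Or.inl (Or.inl (Or.inr ⟨i, j, k, ki, kj, kk, hk', rfl⟩)))
      dsimp only at this
      rw [mon_add, ← tn _ ki, ← tn _ kj, ← tn _ kk] at this
      simpa using this)
  obtain ⟨χ, hχ⟩ := h.lift U ψ (by
      rintro (i | i) hi
      · have := h.zero _ hi
        change ψ (t i) = 0
        rw [hψ]
        exact t0 i (by rw [hb]; exact this)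
      · have := h.zero _ hi
        simp only [tf, Sum.elim_inr, map_sub, map_one] at this ⊢
        rw [hψ, t1 i (by rw [hb]; exact sub_eq_zero.mp this), sub_self]) (by
      rintro (i | i) hi
      · have := (h.unit _ hi).ne_zero
        change IsUnit (ψ (t i))
        rw [hψ]
        exact tU i (by rw [hb]; exact this)
      · have := (h.unit _ hi).ne_zero
        simp only [tf, Sum.elim_inr, map_sub, map_one] at this ⊢
        rw [hψ]
        have hi1 : b i ≠ 1 := fun h' => this (sub_eq_zero.mpr (by rw [hb] at h'; exact h'))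
        by_cases hi0 : b i = 0
        · rw [t0 i hi0, zero_sub]
          exact isUnit_one.neg
        · rw [tg i ⟨hi0, hi1⟩]
          have h3 := hu.add (Sum.inl ⟨i, hi0, hi1⟩)
          have h4 := (hu.unit (Sum.inr (Sum.inl ⟨i, hi0, hi1⟩))).neg
          have h5 : u (Sum.inl (Sum.inl ⟨i, hi0, hi1⟩)) - 1 =
              - u (Sum.inr (Sum.inl ⟨i, hi0, hi1⟩)) := by
            rw [← h3]
            ring
          rw [h5]
          exact h4)
  have hχ' : ∀ a, χ (φ a) = ψ a := fun a => congrArg (fun f : A →ₐ[R] _ => f a) hχ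
  have hφb : ∀ i, φ (t i) = b i := fun i => by rw [hb]
  have hχb : ∀ i, χ (b i) = t' i := fun i => by rw [← hφb]; exact (hχ' (t i)).trans (hψ i)
  refine ⟨AlgEquiv.ofAlgHom g χ ?_ ?_⟩
  · apply h.uniq B
    apply ht.uniq B
    intro i
    change g (χ (φ (t i))) = φ (t i)
    rw [hφb, hχb]
    by_cases hi : b i = 0
    · rw [t0 i hi, map_zero, hi]
    · rw [tn i hi, map_mon]
      have : (fun v => g (u v)) = us b := funext hg
      rw [this, mon_us b hi]
  · apply sol_ext
    intro v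
    change χ (g (u v)) = u v
    rw [hg]
    rcases v with (i | x) | (i | x)
    · exact (hχb i.1).trans (tg i.1 i.2)
    · have h6 : us b (Sum.inl (Sum.inr x)) * b x.1.2.2 = b x.1.1 := by
        change b x.1.1 * Ring.inverse (b x.1.2.2) * b x.1.2.2 = _
        rw [mul_assoc, Ring.inverse_mul_cancel _ (h0 _ x.2.2.2.1), mul_one]
      have h7 := congrArg χ h6
      rw [map_mul, hχb, hχb, ← rx x] at h7
      exact (tU _ x.2.2.2.1).mul_right_cancel h7
    · have h8 : χ (us b (Sum.inr (Sum.inl i))) = 1 - χ (b i.1) := by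
        change χ (1 - b i.1) = _
        rw [map_sub, map_one]
      rw [h8, hχb, tg i.1 i.2, ← hu.add (Sum.inl i)]
      ring
    · have h6 : us b (Sum.inr (Sum.inr x)) * b x.1.2.2 = b x.1.2.1 := by
        change b x.1.2.1 * Ring.inverse (b x.1.2.2) * b x.1.2.2 = _
        rw [mul_assoc, Ring.inverse_mul_cancel _ (h0 _ x.2.2.2.1), mul_one]
      have h7 := congrArg χ h6
      rw [map_mul, hχb, hχb, ← ry x] at h7
      exact (tU _ x.2.2.2.1).mul_right_cancel h7

/-- an inconsistent system -/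
def badU : Set (SBin (Unit ⊕ Unit)) := {(Finsupp.single (Sum.inl ()) 1, 0, 1)}

lemma subsingleton_badU : Subsingleton (URing R badU) := by
  have h := isSol_univ (R := R) badU
  have h1 := h.rel _ rfl
  have h2 := h.add ()
  dsimp only at h1
  rw [mon_single, mon_zero] at h1
  simp only [Units.val_one, Int.cast_one, mul_one] at h1
  have h3 : univS badU R (Sum.inr ()) = 0 := by
    rw [h1] at h2
    exact left_eq_add.mp h2.symm
  have h4 := h.unit (Sum.inr ())
  rw [h3, isUnit_zero_iff] at h4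
  exact subsingleton_of_zero_eq_one h4

/-- **Universality of the unit equation.** -/
theorem unit_universal {sep : Prop} {P : Sch R → Prop} (hR : Presents ({0, 1} : Set R))
    (hP : Ext sep P) (h : ∀ (I : Type) [Fintype I] (S : Set (SBin (I ⊕ I))), P (uspace R S))
    (X : Sch R) (hX : FT sep X) : P X := by
  classical
  refine of_affine' hP.iso hP.total ?_ X hX
  intro A _ _ _
  obtain ⟨T, z, o, ht⟩ := exists_tab hR A
  refine of_strata' hP.split A (tf (Subtype.val : T → A)) ?_
  intro σ B _ _ _ φ hφ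
  rcases subsingleton_or_nontrivial B with hB | hB
  · have : Subsingleton (URing R badU) := subsingleton_badU
    exact hP.alg (zeroEquiv (URing R badU) B) (h _ badU)
  · obtain ⟨e⟩ := ustratum_iso ht hφ _ rfl
    exact hP.alg e (h _ _)

end Pool.Agent.U586.MU
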