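import Pool.Agent.U586.MU.UDefs
import Pool.Agent.U586.MU.Dim

/-!
# Universality of the schemes of solutions of unit equations
-/

set_option autoImplicit false

open CategoryTheory AlgebraicGeometry MvPolynomial Pool.Agent.Y116.UV

namespace Pool.Agent.U586.MU

section pres

variable {R : Type} [CommRing R] {V : Type} (S : Set (MvPolynomial V R)) (D : MvPolynomial V R)

/-- the structure map of a presented algebra -/
noncomputable def toPres : MvPolynomial V R →ₐ[R]
    Localization.Away (Ideal.Quotient.mk (Ideal.span S) D) :=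
  (IsScalarTower.toAlgHom R (MvPolynomial V R ⧸ Ideal.span S) _).comp (Ideal.Quotient.mkₐ R _)

lemma toPres_eq {p : MvPolynomial V R} (hp : p ∈ S) : toPres S D p = 0 := by
  have : Ideal.Quotient.mkₐ R (Ideal.span S) p = 0 :=
    Ideal.Quotient.eq_zero_iff_mem.mpr (Ideal.subset_span hp)
  rw [toPres, AlgHom.comp_apply, this, map_zero]

lemma toPres_unit : IsUnit (toPres S D D) :=
  IsLocalization.Away.algebraMap_isUnit (Ideal.Quotient.mk (Ideal.span S) D)

variable {S D}

theorem pres_lift {C : Type} [CommRing C] [Algebra R C] {s : V → C}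
    (h0 : ∀ p ∈ S, aeval s p = 0) (h1 : IsUnit (aeval s D)) :
    ∃ g : Localization.Away (Ideal.Quotient.mk (Ideal.span S) D) →ₐ[R] C,
      ∀ v, g (toPres S D (X v)) = s v := by
  have hI : ∀ p ∈ Ideal.span S, aeval s p = 0 := by
    intro p hp
    have : Ideal.span S ≤ RingHom.ker (aeval s : MvPolynomial V R →ₐ[R] C) := by
      rw [Ideal.span_le]
      exact fun p hp => h0 p hp
    exact this hp
  let g1 : (MvPolynomial V R ⧸ Ideal.span S) →ₐ[R] C :=
    Ideal.Quotient.liftₐ _ (aeval s) hI
  have hd : IsUnit (g1 (Ideal.Quotient.mk _ D)) := h1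
  have hu : ∀ y : Submonoid.powers (Ideal.Quotient.mk (Ideal.span S) D),
      IsUnit ((g1 : (MvPolynomial V R ⧸ Ideal.span S) →+* C) y) := by
    rintro ⟨_, n, rfl⟩
    change IsUnit (g1 (_ ^ n))
    rw [map_pow]
    exact hd.pow n
  refine ⟨{ (IsLocalization.lift (M := Submonoid.powers _) hu :
      Localization.Away (Ideal.Quotient.mk (Ideal.span S) D) →+* C) with
        commutes' := by
          intro r
          change IsLocalization.lift (M := Submonoid.powers _) hu (algebraMap R
            (Localization.Away (Ideal.Quotient.mk (Ideal.span S) D)) r) = _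
          rw [IsScalarTower.algebraMap_apply R (MvPolynomial V R ⧸ Ideal.span S)
            (Localization.Away (Ideal.Quotient.mk (Ideal.span S) D)),
            IsLocalization.lift_eq]
          exact g1.commutes r }, fun v => ?_⟩
  have h := IsLocalization.lift_eq (M := Submonoid.powers _)
    (S := Localization.Away (Ideal.Quotient.mk (Ideal.span S) D)) hu
    (Ideal.Quotient.mk (Ideal.span S) (X v))
  exact h.trans (aeval_X _ _)

theorem pres_ext {C : Type} [CommRing C] [Algebra R C]
    {g g' : Localization.Away (Ideal.Quotient.mk (Ideal.span S) D) →ₐ[R] C}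
    (h : ∀ v, g (toPres S D (X v)) = g' (toPres S D (X v))) : g = g' := by
  apply AlgHom.coe_ringHom_injective
  apply IsLocalization.ringHom_ext (Submonoid.powers (Ideal.Quotient.mk (Ideal.span S) D))
  have h1 : g.comp (toPres S D) = g'.comp (toPres S D) := MvPolynomial.algHom_ext h
  refine RingHom.ext fun p => ?_
  obtain ⟨q, rfl⟩ := Ideal.Quotient.mk_surjective p
  exact congrArg (fun f : MvPolynomial V R →ₐ[R] C => f q) h1

end pres

section mon

variable {C C' V : Type} [CommRing C] [CommRing C'] (s : V → C)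

lemma mon_zero : mon s 0 = 1 := Finsupp.prod_zero_index

lemma mon_single (v : V) : mon s (Finsupp.single v 1) = s v := by
  rw [mon, Finsupp.prod_single_index (by simp), pow_one]

lemma mon_add (p q : V →₀ ℕ) : mon s (p + q) = mon s p * mon s q := by
  classical
  exact Finsupp.prod_add_index' (by simp) fun v a b => pow_add _ _ _

lemma aeval_mon {R : Type} [CommRing R] [Algebra R C] (p : V →₀ ℕ) :
    aeval s (monomial p (1 : R)) = mon s p := by
  rw [aeval_monomial, map_one, one_mul]
  rfl

lemma map_mon {F : Type} [FunLike F C C'] [RingHomClass F C C'] (φ : F) (p : V →₀ ℕ) :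
    φ (mon s p) = mon (fun v => φ (s v)) p := by
  rw [mon, mon, Finsupp.prod, Finsupp.prod, map_prod]
  exact Finset.prod_congr rfl fun v _ => map_pow _ _ _

lemma toPres_mon {R : Type} [CommRing R] (S : Set (MvPolynomial V R)) (D : MvPolynomial V R)
    (p : V →₀ ℕ) : toPres S D (monomial p 1) = mon (fun v => toPres S D (X v)) p := by
  have h : toPres S D = aeval fun v => toPres S D (X v) := by
    apply MvPolynomial.algHom_ext
    intro v
    exact (aeval_X (R := R) (fun v => toPres S D (X v)) v).symm
  conv_lhs => rw [h]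
  exact aeval_mon (R := R) _ p

end mon

section

variable {R : Type} [CommRing R] {I : Type} [Fintype I] (S : Set (SBin (I ⊕ I)))

/-- the universal solution -/
noncomputable def univS (R : Type) [CommRing R] (v : I ⊕ I) : URing R S :=
  toPres (ueqs R S) (∏ v : I ⊕ I, X v) (X v)

theorem isSol_univ : IsSol S (univS S R) where
  add i := by
    have h := toPres_eq (ueqs R S) (∏ v : I ⊕ I, X v) (Or.inl ⟨i, rfl⟩)
    rw [map_sub, map_add, map_one, sub_eq_zero] at h
    exact h
  unit v := by
    have h := toPres_unit (ueqs R S) (∏ v : I ⊕ I, X v)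
    have h2 : (X v : MvPolynomial (I ⊕ I) R) ∣ ∏ v : I ⊕ I, X v :=
      Finset.dvd_prod_of_mem (fun v : I ⊕ I => (X v : MvPolynomial (I ⊕ I) R)) (Finset.mem_univ v)
    exact isUnit_of_dvd_unit (map_dvd (toPres (ueqs R S) (∏ v : I ⊕ I, X v)) h2) h
  rel e he := by
    have h := toPres_eq (ueqs R S) (∏ v : I ⊕ I, X v) (Or.inr ⟨e, he, rfl⟩)
    rw [map_sub, sub_eq_zero, map_mul, toPres_mon, toPres_mon] at h
    refine h.trans ?_
    congr 1
    rw [← algebraMap_eq, AlgHom.commutes, map_intCast]

variable {S}

theorem sol_lift {C : Type} [CommRing C] [Algebra R C] {s : I ⊕ I → C} (hs : IsSol S s) :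
    ∃ g : URing R S →ₐ[R] C, ∀ v, g (univS S R v) = s v := by
  refine pres_lift (S := ueqs R S) (D := ∏ v : I ⊕ I, X v) ?_ ?_
  · rintro p (⟨i, rfl⟩ | ⟨e, he, rfl⟩)
    · rw [map_sub, map_add, aeval_X, aeval_X, map_one, hs.add, sub_self]
    · rw [map_sub, map_mul, aeval_mon, aeval_mon, aeval_C, map_intCast, hs.rel e he, sub_self]
  · rw [map_prod, IsUnit.prod_iff]
    intro v _
    rw [aeval_X]
    exact hs.unit v

theorem sol_ext {C : Type} [CommRing C] [Algebra R C] {g g' : URing R S →ₐ[R] C}
    (h : ∀ v, g (univS S R v) = g' (univS S R v)) : g = g' := pres_ext h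

instance : Algebra.FiniteType R (URing R S) :=
  Algebra.FiniteType.trans (S := MvPolynomial (I ⊕ I) R ⧸ Ideal.span (ueqs R S))
    inferInstance inferInstance

end

end Pool.Agent.U586.MU
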